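import Mathlib

/-! Definitions: modules over a finite group, trivial direct summands, the square `N(Y)` with the
exchange of the two factors. -/

set_option autoImplicit false

namespace Pool.Agent.AMP

open TensorProduct

/-- The group with two elements. -/
abbrev C2 : Type := Multiplicative (ZMod 2)

/-- The actions of `G` on a vector space `M`. -/
abbrev Rep' (k G M : Type) [Field k] [Group G] [AddCommGroup M] [Module k M] : Type :=
  Representation k G M

/-- The tensor product of two vector spaces. -/
abbrev Tn (k A B : Type) [Field k] [AddCommGroup A] [Module k A] [AddCommGroup B] [Module k B] :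
    Type :=
  A ⊗[k] B

/-- The threefold tensor product underlying `N(F) ⊗ E`. -/
abbrev TT (k F E : Type) [Field k] [AddCommGroup F] [Module k F] [AddCommGroup E] [Module k E] :
    Type :=
  (F ⊗[k] F) ⊗[k] E

/-- The tensor power of a vector space with factors indexed by `ι`. -/
abbrev Pw (k ι M : Type) [Field k] [AddCommGroup M] [Module k M] : Type :=
  ⨂[k] _ : ι, M

section Unbundled

variable {k G M N V : Type} [Field k] [Group G] [AddCommGroup M] [Module k M]
  [AddCommGroup N] [Module k N] [AddCommGroup V] [Module k V]

/-- The linear map `f` commutes with the actions of the group. -/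
def IsHom (ρ : Representation k G M) (σ : Representation k G N) (f : M →ₗ[k] N) : Prop :=
  ∀ g x, f (ρ g x) = σ g (f x)

/-- An invariant vector. -/
def InvVec (ρ : Representation k G M) (w : M) : Prop := ∀ g, ρ g w = w

/-- An invariant functional. -/
def InvFun (ρ : Representation k G M) (T : M →ₗ[k] k) : Prop := ∀ g x, T (ρ g x) = T x

/-- The trivial module `k` is a direct summand: it is spanned by an invariant vector on which an
invariant functional takes the value 1. -/
def Triv (ρ : Representation k G M) : Prop :=
  ∃ (w : M) (T : M →ₗ[k] k), InvVec ρ w ∧ InvFun ρ T ∧ T w = 1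

/-- An indecomposable module: nonzero, and not the direct sum of two nonzero submodules. -/
def Indec (ρ : Representation k G M) : Prop :=
  Nontrivial M ∧ ∀ U W : Submodule k M, (∀ g, ∀ x ∈ U, ρ g x ∈ U) → (∀ g, ∀ x ∈ W, ρ g x ∈ W) →
    IsCompl U W → U = ⊥ ∨ W = ⊥

/-- Two modules are isomorphic. -/
def Iso (ρ : Representation k G M) (σ : Representation k G N) : Prop :=
  ∃ e : M ≃ₗ[k] N, ∀ g x, e (ρ g x) = σ g (e x)

/-- The module `M` regarded as a module over `G × C2`, with trivial action of `C2`. -/
def infl (ρ : Representation k G M) : Rep' k (G × C2) M :=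
  ρ.comp (MonoidHom.fst G C2)

/-- The tensor product of two modules. -/
noncomputable def tp (ρ : Representation k G M) (σ : Representation k G N) :
    Rep' k G (Tn k M N) :=
  ρ.tprod σ

variable (k V) in
/-- The action of `C2` on `V ⊗ V`, exchanging the two factors. -/
noncomputable def swp (s : C2) : V ⊗[k] V →ₗ[k] V ⊗[k] V :=
  if s = 1 then LinearMap.id else (TensorProduct.comm k V V).toLinearMap

theorem c2_mul {s t : C2} (hs : s ≠ 1) (ht : t ≠ 1) : s * t = 1 := by
  revert s t
  decide

theorem comm_comm (x : V ⊗[k] V) : TensorProduct.comm k V V (TensorProduct.comm k V V x) = x := by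
  induction x using TensorProduct.induction_on with
  | zero => simp
  | tmul m v => simp
  | add x y hx hy => simp only [map_add, hx, hy]

theorem comm_map (A : V →ₗ[k] V) (x : V ⊗[k] V) :
    TensorProduct.comm k V V (TensorProduct.map A A x) =
      TensorProduct.map A A (TensorProduct.comm k V V x) := by
  induction x using TensorProduct.induction_on with
  | zero => simp
  | tmul m v => simp
  | add x y hx hy => simp only [map_add, hx, hy]

theorem swp_mul (s t : C2) (x : V ⊗[k] V) : swp k V (s * t) x = swp k V s (swp k V t x) := by
  unfold swp
  by_cases hs : s = 1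
  · subst hs
    simp
  · by_cases ht : t = 1
    · subst ht
      simp
    · rw [if_pos (c2_mul hs ht), if_neg hs, if_neg ht]
      exact (comm_comm x).symm

theorem swp_map (s : C2) (A : V →ₗ[k] V) (x : V ⊗[k] V) :
    swp k V s (TensorProduct.map A A x) = TensorProduct.map A A (swp k V s x) := by
  unfold swp
  split_ifs
  · rfl
  · exact comm_map A x

/-- The module `N(V) = V ⊗ V` over `G × C2`: the group `G` acts diagonally and the generator of
`C2` exchanges the two factors. -/
noncomputable def sq (σ : Representation k G V) : Rep' k (G × C2) (Tn k V V) where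
  toFun a := TensorProduct.map (σ a.1) (σ a.1) ∘ₗ swp k V a.2
  map_one' := by
    refine LinearMap.ext fun x => ?_
    simp [swp]
  map_mul' a b := by
    refine LinearMap.ext fun x => ?_
    rw [Module.End.mul_apply, LinearMap.comp_apply, LinearMap.comp_apply, LinearMap.comp_apply,
      Prod.snd_mul, Prod.fst_mul, swp_mul, map_mul, swp_map, Module.End.mul_eq_comp,
      TensorProduct.map_comp]
    rfl

/-- The module `N(V) ⊗ M` over `G × C2`. -/
noncomputable def tens (σ : Representation k G V) (ρ : Representation k G M) :
    Rep' k (G × C2) (TT k V M) :=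
  tp (sq σ) (infl ρ)

/-- The tensor power of `M` with factors indexed by `ι`, with the diagonal action. -/
noncomputable def tpow (ι : Type) (ρ : Representation k G M) :
    Rep' k G (Pw k ι M) where
  toFun g := PiTensorProduct.map (R := k) (s := fun _ : ι => M) (t := fun _ : ι => M) fun _ => ρ g
  map_one' := by
    rw [map_one]
    exact PiTensorProduct.map_id
  map_mul' a b := by
    rw [map_mul]
    exact PiTensorProduct.map_comp _ _

end Unbundled

end Pool.Agent.AMP
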