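import Mathlib
import Pool.Agent.AMP.Defs
import Pool.Agent.Helper38.Gamma.Key

/-! Endomorphisms of indecomposable modules. -/

set_option autoImplicit false

namespace Pool.Agent.AMP

open TensorProduct

section

variable {k G M N V : Type} [Field k] [Group G] [AddCommGroup M] [Module k M]
  [AddCommGroup N] [Module k N] [AddCommGroup V] [Module k V]

theorem IsHom.comp {ρ : Representation k G M} {σ : Representation k G N}
    {τ : Representation k G V} {f : M →ₗ[k] N} {g : N →ₗ[k] V} (hg : IsHom σ τ g)
    (hf : IsHom ρ σ f) : IsHom ρ τ (g ∘ₗ f) := by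
  intro a x
  rw [LinearMap.comp_apply, LinearMap.comp_apply, hf, hg]

theorem IsHom.add {ρ : Representation k G M} {σ : Representation k G N}
    {f g : M →ₗ[k] N} (hf : IsHom ρ σ f) (hg : IsHom ρ σ g) : IsHom ρ σ (f + g) := by
  intro a x
  rw [LinearMap.add_apply, LinearMap.add_apply, hf, hg, map_add]

theorem IsHom.sub {ρ : Representation k G M} {σ : Representation k G N}
    {f g : M →ₗ[k] N} (hf : IsHom ρ σ f) (hg : IsHom ρ σ g) : IsHom ρ σ (f - g) := by
  intro a x
  rw [LinearMap.sub_apply, LinearMap.sub_apply, hf, hg, map_sub]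

theorem IsHom.smul {ρ : Representation k G M} {σ : Representation k G N}
    {f : M →ₗ[k] N} (c : k) (hf : IsHom ρ σ f) : IsHom ρ σ (c • f) := by
  intro a x
  rw [LinearMap.smul_apply, LinearMap.smul_apply, hf, map_smul]

theorem isHom_id (ρ : Representation k G M) : IsHom ρ ρ LinearMap.id := fun _ _ => rfl

theorem IsHom.inv {ρ : Representation k G M} {σ : Representation k G N} {f : M →ₗ[k] N}
    (hf : IsHom ρ σ f) (e : M ≃ₗ[k] N) (he : ∀ x, e x = f x) :
    IsHom σ ρ e.symm.toLinearMap := by
  intro g x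
  apply e.injective
  rw [LinearEquiv.coe_coe, e.apply_symm_apply, he, hf, ← he, e.apply_symm_apply]

theorem InvVec.map {ρ : Representation k G M} {σ : Representation k G N} {f : M →ₗ[k] N}
    (hf : IsHom ρ σ f) {w : M} (hw : InvVec ρ w) : InvVec σ (f w) := by
  intro g
  rw [← hf, hw]

theorem InvFun.comp {ρ : Representation k G M} {σ : Representation k G N} {f : M →ₗ[k] N}
    (hf : IsHom ρ σ f) {T : N →ₗ[k] k} (hT : InvFun σ T) : InvFun ρ (T ∘ₗ f) := by
  intro g x
  rw [LinearMap.comp_apply, LinearMap.comp_apply, hf, hT]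

/-- A nonzero value suffices for a trivial direct summand. -/
theorem triv_of_ne {ρ : Representation k G M} {w : M} {T : M →ₗ[k] k} (hw : InvVec ρ w)
    (hT : InvFun ρ T) (h : T w ≠ 0) : Triv ρ := by
  refine ⟨w, (T w)⁻¹ • T, hw, fun g x => ?_, ?_⟩
  · rw [LinearMap.smul_apply, LinearMap.smul_apply, hT]
  · rw [LinearMap.smul_apply, smul_eq_mul, inv_mul_cancel₀ h]

theorem Triv.of_maps {ρ : Representation k G M} {σ : Representation k G N} {i : N →ₗ[k] M}
    {p : M →ₗ[k] N} (hi : IsHom σ ρ i) (hp : IsHom ρ σ p) (hpi : ∀ x, p (i x) = x)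
    (h : Triv σ) : Triv ρ := by
  obtain ⟨w, T, hw, hT, h1⟩ := h
  refine ⟨i w, T ∘ₗ p, InvVec.map hi hw, InvFun.comp hp hT, ?_⟩
  rw [LinearMap.comp_apply, hpi, h1]

theorem Iso.refl (ρ : Representation k G M) : Iso ρ ρ := ⟨LinearEquiv.refl k M, fun _ _ => rfl⟩

theorem Iso.symm {ρ : Representation k G M} {σ : Representation k G N} (h : Iso ρ σ) :
    Iso σ ρ := by
  obtain ⟨e, he⟩ := h
  refine ⟨e.symm, fun g x => ?_⟩
  apply e.injective
  rw [e.apply_symm_apply, he, e.apply_symm_apply]

theorem Iso.trans {ρ : Representation k G M} {σ : Representation k G N}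
    {τ : Representation k G V} (h : Iso ρ σ) (h' : Iso σ τ) : Iso ρ τ := by
  obtain ⟨e, he⟩ := h
  obtain ⟨e', he'⟩ := h'
  refine ⟨e.trans e', fun g x => ?_⟩
  rw [LinearEquiv.trans_apply, LinearEquiv.trans_apply, he, he']

theorem Iso.triv {ρ : Representation k G M} {σ : Representation k G N} (h : Iso ρ σ)
    (hT : Triv ρ) : Triv σ := by
  obtain ⟨e, he⟩ := h
  have hi : IsHom ρ σ e.toLinearMap := fun g x => he g x
  exact Triv.of_maps hi (hi.inv e fun _ => rfl) (fun x => e.symm_apply_apply x) hT

theorem Iso.triv_iff {ρ : Representation k G M} {σ : Representation k G N} (h : Iso ρ σ) :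
    Triv ρ ↔ Triv σ := ⟨h.triv, h.symm.triv⟩

theorem Iso.finrank {ρ : Representation k G M} {σ : Representation k G N} (h : Iso ρ σ) :
    Module.finrank k M = Module.finrank k N := by
  obtain ⟨e, _⟩ := h
  exact e.finrank_eq

theorem Iso.indec {ρ : Representation k G M} {σ : Representation k G N} (h : Iso ρ σ)
    (hI : Indec ρ) : Indec σ := by
  obtain ⟨e, he⟩ := h
  obtain ⟨h0, h1⟩ := hI
  refine ⟨e.symm.toEquiv.nontrivial, fun U W hU hW hc => ?_⟩
  have hcomap : ∀ U : Submodule k N, (∀ g, ∀ x ∈ U, σ g x ∈ U) →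
      ∀ g, ∀ x ∈ U.comap e.toLinearMap, ρ g x ∈ U.comap e.toLinearMap := by
    intro U hU g x hx
    rw [Submodule.mem_comap] at hx ⊢
    rw [LinearEquiv.coe_coe] at hx ⊢
    rw [he]
    exact hU g _ hx
  have hb : ∀ U : Submodule k N, U.comap e.toLinearMap = ⊥ → U = ⊥ := by
    intro U hU
    rw [eq_bot_iff]
    intro x hx
    have h2 : e.symm x ∈ U.comap e.toLinearMap := by
      rw [Submodule.mem_comap, LinearEquiv.coe_coe, e.apply_symm_apply]
      exact hx
    rw [hU, Submodule.mem_bot] at h2
    rw [Submodule.mem_bot]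
    exact e.symm.map_eq_zero_iff.mp h2
  have hc' : IsCompl (U.comap e.toLinearMap) (W.comap e.toLinearMap) := by
    constructor
    · rw [Submodule.disjoint_def]
      intro x hx hx'
      rw [Submodule.mem_comap, LinearEquiv.coe_coe] at hx hx'
      have h2 := (Submodule.disjoint_def.mp hc.disjoint) _ hx hx'
      exact e.map_eq_zero_iff.mp h2
    · rw [codisjoint_iff, eq_top_iff]
      intro x _
      have h2 : e x ∈ U ⊔ W := by
        rw [codisjoint_iff.mp hc.codisjoint]
        exact Submodule.mem_top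
      obtain ⟨u, hu, w, hw, huw⟩ := Submodule.mem_sup.mp h2
      refine Submodule.mem_sup.mpr ⟨e.symm u, ?_, e.symm w, ?_, ?_⟩
      · rw [Submodule.mem_comap, LinearEquiv.coe_coe, e.apply_symm_apply]
        exact hu
      · rw [Submodule.mem_comap, LinearEquiv.coe_coe, e.apply_symm_apply]
        exact hw
      · rw [← map_add, huw, e.symm_apply_apply]
  rcases h1 _ _ (hcomap U hU) (hcomap W hW) hc' with h | h
  · exact Or.inl (hb U h)
  · exact Or.inr (hb W h)

/-- A module all of whose endomorphisms have trace zero. -/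
def Neg (ρ : Representation k G M) : Prop := ∀ f, IsHom ρ ρ f → LinearMap.trace k M f = 0

end

section Local

variable {k G M : Type} [Field k] [Group G] [AddCommGroup M] [Module k M]
  [FiniteDimensional k M] {ρ : Representation k G M}

theorem nilpotent_or_bijective (hI : Indec ρ) {f : M →ₗ[k] M} (hf : IsHom ρ ρ f) :
    IsNilpotent (f : Module.End k M) ∨ Function.Bijective f := by
  rcases Pool.Agent.Helper38.Gamma.fitting ρ hI.2 f hf with h | h
  · exact Or.inl h
  · exact Or.inr ⟨h, LinearMap.injective_iff_surjective.mp h⟩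

omit [FiniteDimensional k M] in
theorem trace_nilpotent {f : M →ₗ[k] M} (h : IsNilpotent (f : Module.End k M)) :
    LinearMap.trace k M f = 0 :=
  (LinearMap.isNilpotent_trace_of_isNilpotent h).eq_zero

theorem bijective_of_trace (hI : Indec ρ) {f : M →ₗ[k] M} (hf : IsHom ρ ρ f)
    (h : LinearMap.trace k M f ≠ 0) : Function.Bijective f :=
  (nilpotent_or_bijective hI hf).resolve_left fun hn => h (trace_nilpotent hn)

theorem exists_scalar [IsAlgClosed k] (hI : Indec ρ) {f : M →ₗ[k] M} (hf : IsHom ρ ρ f) :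
    ∃ c : k, IsNilpotent (f - c • LinearMap.id : Module.End k M) := by
  have := hI.1
  obtain ⟨c, hc⟩ := Module.End.exists_eigenvalue (f : Module.End k M)
  refine ⟨c, (nilpotent_or_bijective hI (hf.sub ((isHom_id ρ).smul c))).resolve_right ?_⟩
  intro hb
  obtain ⟨v, hv, hv0⟩ := hc.exists_hasEigenvector
  apply hv0
  apply hb.1
  rw [map_zero, LinearMap.sub_apply, LinearMap.smul_apply, LinearMap.id_apply]
  rw [Module.End.mem_eigenspace_iff] at hv
  rw [hv, sub_self]

theorem trace_eq [IsAlgClosed k] {f : M →ₗ[k] M} {c : k}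
    (hc : IsNilpotent (f - c • LinearMap.id : Module.End k M)) :
    LinearMap.trace k M f = c * Module.finrank k M := by
  have h := trace_nilpotent hc
  rw [map_sub, map_smul, LinearMap.trace_id, smul_eq_mul, sub_eq_zero] at h
  exact h

variable [CharP k 2]

theorem cast_even {n : ℕ} (h : Even n) : (n : k) = 0 := by
  obtain ⟨m, rfl⟩ := h
  push_cast
  exact CharTwo.add_self_eq_zero _

theorem cast_odd {n : ℕ} (h : Odd n) : (n : k) = 1 := by
  obtain ⟨m, rfl⟩ := h
  push_cast
  rw [CharTwo.two_eq_zero, zero_mul, zero_add]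

theorem neg_of_even [IsAlgClosed k] (hI : Indec ρ) (he : Even (Module.finrank k M)) : Neg ρ := by
  intro f hf
  obtain ⟨c, hc⟩ := exists_scalar hI hf
  rw [trace_eq hc, cast_even he, mul_zero]

/-- For an indecomposable module of odd dimension, endomorphisms of trace zero are negligible. -/
theorem trace_comp_eq_zero [IsAlgClosed k] (hI : Indec ρ) (ho : Odd (Module.finrank k M))
    {f : M →ₗ[k] M} (hf : IsHom ρ ρ f) (h0 : LinearMap.trace k M f = 0) {g : M →ₗ[k] M}
    (hg : IsHom ρ ρ g) : LinearMap.trace k M (g ∘ₗ f) = 0 := by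
  obtain ⟨c, hc⟩ := exists_scalar hI hf
  rw [trace_eq hc, cast_odd ho, mul_one] at h0
  subst h0
  rw [zero_smul, sub_zero] at hc
  rcases nilpotent_or_bijective hI (hg.comp hf) with h | h
  · exact trace_nilpotent h
  · exfalso
    have := hI.1
    obtain ⟨n, hn⟩ := hc
    have hinj : Function.Injective f := by
      intro x y hxy
      apply h.1
      rw [LinearMap.comp_apply, LinearMap.comp_apply, hxy]
    have h2 : Function.Injective (f ^ n : Module.End k M) := by
      rw [Module.End.coe_pow]
      exact hinj.iterate n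
    rw [hn] at h2
    obtain ⟨x, hx⟩ := exists_ne (0 : M)
    exact hx (h2 (by rw [LinearMap.zero_apply, LinearMap.zero_apply]))

/-- An indecomposable module with a trivial direct summand has dimension one. -/
theorem finrank_eq_one_of_triv {k G M : Type} [Field k] [Group G] [AddCommGroup M] [Module k M]
    [FiniteDimensional k M] {ρ : Representation k G M} (hI : Indec ρ) (h : Triv ρ) :
    Module.finrank k M = 1 := by
  obtain ⟨w, T, hw, hT, h1⟩ := h
  have hw0 : w ≠ 0 := by
    rintro rfl
    rw [map_zero] at h1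
    exact zero_ne_one h1
  have hcompl : IsCompl (Submodule.span k {w}) (LinearMap.ker T) := by
    constructor
    · rw [Submodule.disjoint_def]
      intro x hx hx'
      obtain ⟨c, rfl⟩ := Submodule.mem_span_singleton.mp hx
      rw [LinearMap.mem_ker, map_smul, h1, smul_eq_mul, mul_one] at hx'
      rw [hx', zero_smul]
    · rw [codisjoint_iff, eq_top_iff]
      intro x _
      have : x = T x • w + (x - T x • w) := by abel
      rw [this]
      refine Submodule.add_mem_sup (Submodule.smul_mem _ _ (Submodule.mem_span_singleton_self _)) ?_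
      rw [LinearMap.mem_ker, map_sub, map_smul, h1, smul_eq_mul, mul_one, sub_self]
  rcases hI.2 _ _ (fun g x hx => by
      obtain ⟨c, rfl⟩ := Submodule.mem_span_singleton.mp hx
      rw [map_smul, hw]
      exact Submodule.smul_mem _ _ (Submodule.mem_span_singleton_self _))
      (fun g x hx => by
        rw [LinearMap.mem_ker] at hx ⊢
        rw [hT, hx]) hcompl with h | h
  · exact absurd (Submodule.span_singleton_eq_bot.mp h) hw0
  · rw [h] at hcompl
    have h2 : Submodule.span k {w} = ⊤ := by
      have := hcompl.sup_eq_top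
      rwa [sup_bot_eq] at this
    rw [← finrank_top, ← h2]
    exact finrank_span_singleton hw0

end Local

end Pool.Agent.AMP
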