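import Mathlib
import Pool.Agent.AMP.Local

/-! Contraction of a vector of a tensor product against a functional, in all factors but one. -/

set_option autoImplicit false

namespace Pool.Agent.AMP

open TensorProduct

section

variable {k G A B C D : Type} [Field k] [Group G] [AddCommGroup A] [Module k A]
  [AddCommGroup B] [Module k B] [AddCommGroup C] [Module k C] [AddCommGroup D] [Module k D]

theorem tp_apply (ρ : Representation k G A) (σ : Representation k G B) (g : G)
    (x : A ⊗[k] B) : tp ρ σ g x = TensorProduct.map (ρ g) (σ g) x := rfl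

theorem rep_inv_apply (ρ : Representation k G A) (g : G) (x : A) : ρ g (ρ g⁻¹ x) = x := by
  rw [← Module.End.mul_apply, ← map_mul, mul_inv_cancel, map_one, Module.End.one_apply]

theorem rep_inv_apply' (ρ : Representation k G A) (g : G) (x : A) : ρ g⁻¹ (ρ g x) = x := by
  rw [← Module.End.mul_apply, ← map_mul, inv_mul_cancel, map_one, Module.End.one_apply]

/-- The endomorphism `b ↦ ∑ T (aᵢ ⊗ b) bᵢ` of `B` attached to `w = ∑ aᵢ ⊗ bᵢ`. -/
noncomputable def contr (T : A ⊗[k] B →ₗ[k] k) : A ⊗[k] B →ₗ[k] B →ₗ[k] B :=
  TensorProduct.lift (LinearMap.mk₂ k (fun a b => LinearMap.smulRight (TensorProduct.curry T a) b)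
    (fun a a' b => by
      refine LinearMap.ext fun x => ?_
      simp [add_smul])
    (fun c a b => by
      refine LinearMap.ext fun x => ?_
      simp [mul_smul])
    (fun a b b' => by
      refine LinearMap.ext fun x => ?_
      simp)
    (fun c a b => by
      refine LinearMap.ext fun x => ?_
      simp [smul_comm c]))

theorem contr_tmul (T : A ⊗[k] B →ₗ[k] k) (a : A) (b x : B) :
    contr T (a ⊗ₜ b) x = T (a ⊗ₜ x) • b := rfl

theorem trace_contr [FiniteDimensional k B] (T : A ⊗[k] B →ₗ[k] k) (w : A ⊗[k] B) :
    LinearMap.trace k B (contr T w) = T w := by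
  induction w using TensorProduct.induction_on with
  | zero => rw [map_zero, map_zero, map_zero]
  | tmul a b =>
    have h : contr T (a ⊗ₜ b) = LinearMap.smulRight (TensorProduct.curry T a) b := rfl
    rw [h, LinearMap.trace_smulRight]
    rfl
  | add x y hx hy => rw [map_add, map_add, hx, hy, map_add]

theorem contr_map (T : A ⊗[k] B →ₗ[k] k) (f : A →ₗ[k] A) (g : B →ₗ[k] B) (w : A ⊗[k] B)
    (hT : ∀ x, T (TensorProduct.map f g x) = T x) (x : B) :
    contr T (TensorProduct.map f g w) (g x) = g (contr T w x) := by
  induction w using TensorProduct.induction_on with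
  | zero => simp
  | tmul a b =>
    rw [TensorProduct.map_tmul, contr_tmul, contr_tmul, map_smul, ← hT (a ⊗ₜ x),
      TensorProduct.map_tmul]
  | add y z hy hz =>
    rw [map_add, map_add, LinearMap.add_apply, hy, hz, map_add, LinearMap.add_apply, map_add]

theorem contr_isHom {α : Representation k G A} {β : Representation k G B}
    {T : A ⊗[k] B →ₗ[k] k} {w : A ⊗[k] B} (hw : InvVec (tp α β) w)
    (hT : InvFun (tp α β) T) : IsHom β β (contr T w) := by
  intro g x
  have h := contr_map T (α g) (β g) w (hT g) x
  have h2 : TensorProduct.map (α g) (β g) w = w := hw g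
  rw [h2] at h
  exact h

/-- If all endomorphisms of `B` have trace zero, then `A ⊗ B` has no trivial summand. -/
theorem Neg.not_triv [FiniteDimensional k B] {α : Representation k G A}
    {β : Representation k G B} (h : Neg β) {T : A ⊗[k] B →ₗ[k] k} {w : A ⊗[k] B}
    (hw : InvVec (tp α β) w) (hT : InvFun (tp α β) T) : T w = 0 := by
  rw [← trace_contr T w]
  exact h _ (contr_isHom hw hT)

/-- Tensor product of isomorphisms. -/
theorem Iso.tmap {α : Representation k G A} {β : Representation k G B}
    {γ : Representation k G C} {δ : Representation k G D} (h : Iso α β) (h' : Iso γ δ) :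
    Iso (tp α γ) (tp β δ) := by
  obtain ⟨e, he⟩ := h
  obtain ⟨e', he'⟩ := h'
  refine ⟨TensorProduct.congr e e', fun g x => ?_⟩
  rw [tp_apply, tp_apply]
  induction x using TensorProduct.induction_on with
  | zero => simp
  | tmul a c =>
    rw [TensorProduct.map_tmul, TensorProduct.congr_tmul, TensorProduct.congr_tmul,
      TensorProduct.map_tmul, he, he']
  | add x y hx hy => rw [map_add, map_add, hx, hy, map_add, map_add]

theorem Iso.comm (α : Representation k G A) (β : Representation k G B) :
    Iso (tp α β) (tp β α) := by
  refine ⟨TensorProduct.comm k A B, fun g x => ?_⟩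
  rw [tp_apply, tp_apply]
  induction x using TensorProduct.induction_on with
  | zero => simp
  | tmul a c => rfl
  | add x y hx hy => rw [map_add, map_add, hx, hy, map_add, map_add]

theorem Iso.assoc (α : Representation k G A) (β : Representation k G B)
    (γ : Representation k G C) :
    Iso (tp (tp α β) γ) (tp α (tp β γ)) := by
  refine ⟨TensorProduct.assoc k A B C, fun g x => ?_⟩
  induction x using TensorProduct.induction_on with
  | zero => simp
  | tmul a c =>
    induction a using TensorProduct.induction_on with
    | zero => simp
    | tmul a b => rfl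
    | add x y hx hy => rw [TensorProduct.add_tmul, map_add, map_add, hx, hy, map_add, map_add]
  | add x y hx hy => rw [map_add, map_add, hx, hy, map_add, map_add]

theorem IsHom.tmap {α : Representation k G A} {β : Representation k G B}
    {γ : Representation k G C} {δ : Representation k G D} {f : A →ₗ[k] B} {f' : C →ₗ[k] D}
    (h : IsHom α β f) (h' : IsHom γ δ f') :
    IsHom (tp α γ) (tp β δ) (TensorProduct.map f f') := by
  intro g x
  rw [tp_apply, tp_apply]
  induction x using TensorProduct.induction_on with
  | zero => simp
  | tmul a c =>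
    rw [TensorProduct.map_tmul, TensorProduct.map_tmul, TensorProduct.map_tmul,
      TensorProduct.map_tmul, h, h']
  | add x y hx hy => rw [map_add, map_add, hx, hy, map_add, map_add]

end

end Pool.Agent.AMP
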