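import Mathlib
import Pool.Agent.AMP.Contr
import Pool.Agent.Helper38.Gamma.Three

/-! Trivial summands of `N(Y) ⊗ X` for indecomposable `X` and `Y`. -/

set_option autoImplicit false

namespace Pool.Agent.AMP

open TensorProduct PiTensorProduct

section

variable {k G X Y : Type} [Field k] [Group G] [AddCommGroup X] [Module k X]
  [AddCommGroup Y] [Module k Y]

theorem sq_one_right (σ : Representation k G Y) (g : G) (x : Y ⊗[k] Y) :
    sq σ (g, 1) x = TensorProduct.map (σ g) (σ g) x := by
  change TensorProduct.map (σ g) (σ g) (swp k Y 1 x) = _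
  unfold swp
  rw [if_pos rfl, LinearMap.id_apply]

theorem sq_one_left (σ : Representation k G Y) {s : C2} (hs : s ≠ 1) (x : Y ⊗[k] Y) :
    sq σ (1, s) x = TensorProduct.comm k Y Y x := by
  change TensorProduct.map (σ 1) (σ 1) (swp k Y s x) = _
  unfold swp
  rw [if_neg hs, map_one]
  change TensorProduct.map LinearMap.id LinearMap.id _ = _
  rw [TensorProduct.map_id, LinearMap.id_apply]
  rfl

/-- The generator of `C2`. -/
def gen : C2 := Multiplicative.ofAdd 1

theorem gen_ne : gen ≠ 1 := by decide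

theorem tens_one_right (σ : Representation k G Y) (ρ : Representation k G X) (g : G)
    (x : (Y ⊗[k] Y) ⊗[k] X) :
    tens σ ρ (g, 1) x = TensorProduct.map (TensorProduct.map (σ g) (σ g)) (ρ g) x := by
  change TensorProduct.map (sq σ (g, 1)) (ρ g) x = _
  have : sq σ (g, 1) = TensorProduct.map (σ g) (σ g) := LinearMap.ext (sq_one_right σ g)
  rw [this]

theorem tens_one_left (σ : Representation k G Y) (ρ : Representation k G X) {s : C2}
    (hs : s ≠ 1) (x : (Y ⊗[k] Y) ⊗[k] X) :
    tens σ ρ (1, s) x =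
      TensorProduct.map (TensorProduct.comm k Y Y).toLinearMap LinearMap.id x := by
  change TensorProduct.map (sq σ (1, s)) (ρ 1) x = _
  have : sq σ (1, s) = (TensorProduct.comm k Y Y).toLinearMap :=
    LinearMap.ext (sq_one_left σ hs)
  rw [this, map_one]
  rfl

theorem tens_apply (σ : Representation k G Y) (ρ : Representation k G X) (g : G) (s : C2)
    (x : (Y ⊗[k] Y) ⊗[k] X) :
    tens σ ρ (g, s) x = tens σ ρ (g, 1) (tens σ ρ (1, s) x) := by
  rw [← Module.End.mul_apply, ← map_mul]
  simp

/-- Invariance of a vector, in terms of `G` and the exchange. -/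
theorem invVec_tens {σ : Representation k G Y} {ρ : Representation k G X}
    {w : (Y ⊗[k] Y) ⊗[k] X} : InvVec (tens σ ρ) w ↔
      (∀ g, TensorProduct.map (TensorProduct.map (σ g) (σ g)) (ρ g) w = w) ∧
        TensorProduct.map (TensorProduct.comm k Y Y).toLinearMap LinearMap.id w = w := by
  constructor
  · intro h
    refine ⟨fun g => ?_, ?_⟩
    · rw [← tens_one_right]
      exact h _
    · rw [← tens_one_left σ ρ gen_ne]
      exact h _
  · rintro ⟨h1, h2⟩ ⟨g, s⟩
    rw [tens_apply, tens_one_right]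
    by_cases hs : s = 1
    · subst hs
      have : tens σ ρ (1, 1) w = w := by
        have : ((1 : G), (1 : C2)) = 1 := rfl
        rw [this, map_one]
        rfl
      rw [this, h1]
    · rw [tens_one_left σ ρ hs, h2, h1]

theorem invFun_tens {σ : Representation k G Y} {ρ : Representation k G X}
    {T : (Y ⊗[k] Y) ⊗[k] X →ₗ[k] k} : InvFun (tens σ ρ) T ↔
      (∀ g w, T (TensorProduct.map (TensorProduct.map (σ g) (σ g)) (ρ g) w) = T w) ∧
        ∀ w, T (TensorProduct.map (TensorProduct.comm k Y Y).toLinearMap LinearMap.id w) =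
          T w := by
  constructor
  · intro h
    refine ⟨fun g w => ?_, fun w => ?_⟩
    · rw [← tens_one_right]
      exact h _ _
    · rw [← tens_one_left σ ρ gen_ne]
      exact h _ _
  · rintro ⟨h1, h2⟩ ⟨g, s⟩ w
    rw [tens_apply, tens_one_right, h1]
    by_cases hs : s = 1
    · subst hs
      have : tens σ ρ (1, 1) w = w := by
        have : ((1 : G), (1 : C2)) = 1 := rfl
        rw [this, map_one]
        rfl
      rw [this]
    · rw [tens_one_left σ ρ hs, h2]

theorem triv_res {σ : Representation k G Y} {ρ : Representation k G X}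
    (h : Triv (tens σ ρ)) : Triv (tp (tp σ σ) ρ) := by
  obtain ⟨w, T, hw, hT, h1⟩ := h
  exact ⟨w, T, (invVec_tens.mp hw).1, (invFun_tens.mp hT).1, h1⟩

end

section Main

variable {k G X Y : Type} [Field k] [IsAlgClosed k] [CharP k 2] [Group G] [Finite G]
  [AddCommGroup X] [Module k X] [FiniteDimensional k X]
  [AddCommGroup Y] [Module k Y] [FiniteDimensional k Y]

theorem finrank_of_triv_tens (hG : IsPGroup 2 G) {σ : Representation k G Y}
    {ρ : Representation k G X} (hY : Indec σ) (hX : Indec ρ) (h : Triv (tens σ ρ)) :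
    Module.finrank k Y = 1 := by
  have : Infinite k := IsAlgClosed.instInfinite
  -- the dimension of `Y` is odd
  have hodd : Odd (Module.finrank k Y) := by
    rw [← Nat.not_even_iff_odd]
    intro he
    have h1 : Triv (tp (tp ρ σ) σ) :=
      (Iso.assoc ρ σ σ).symm.triv ((Iso.comm (tp σ σ) ρ).triv (triv_res h))
    obtain ⟨w, T, hw, hT, h2⟩ := h1
    rw [(neg_of_even hY he).not_triv hw hT] at h2
    exact zero_ne_one h2
  obtain ⟨w, T, hw, hT, h1⟩ := h
  have hwI := invVec_tens.mp hw
  have hTI := invFun_tens.mp hT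
  have hPP : IsPGroup 2 (Equiv.Perm (Fin 2)) := by
    refine IsPGroup.of_card (n := 1) ?_
    rw [Nat.card_eq_fintype_card, Fintype.card_perm]
    rfl
  have htr : MulAction.IsPretransitive (Equiv.Perm (Fin 2)) (Fin 2) := by
    refine ⟨fun x y => ⟨Equiv.swap x y, ?_⟩⟩
    exact Equiv.swap_apply_left x y
  have hp1 : ∀ x : ⨂[k] _ : Fin 2, Y,
      reindex k (fun _ => Y) (MulAction.toPerm (1 : Equiv.Perm (Fin 2))) x = x := by
    intro x
    have : (MulAction.toPerm (1 : Equiv.Perm (Fin 2)) : Fin 2 ≃ Fin 2) = Equiv.refl _ := by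
      ext; rfl
    rw [this, reindex_refl]
    rfl
  have hp2 : (MulAction.toPerm (Equiv.swap 0 1 : Equiv.Perm (Fin 2)) : Fin 2 ≃ Fin 2) =
      Equiv.swap 0 1 := by
    ext; rfl
  -- the two maps
  let j : Module.Dual k X →ₗ[k] Y ⊗[k] Y :=
    { toFun := fun ξ => TensorProduct.rid k _ (LinearMap.lTensor _ ξ w)
      map_add' := fun ξ η => by
        rw [LinearMap.lTensor_add, LinearMap.add_apply, map_add]
      map_smul' := fun c ξ => by
        rw [LinearMap.lTensor_smul, LinearMap.smul_apply, map_smul]; rfl }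
  have hj : ∀ ξ, j ξ = TensorProduct.rid k _ (LinearMap.lTensor _ ξ w) := fun ξ => rfl
  have nat : ∀ (A : (Y ⊗[k] Y) →ₗ[k] (Y ⊗[k] Y)) (B : X →ₗ[k] X) (ξ : Module.Dual k X)
      (x : (Y ⊗[k] Y) ⊗[k] X),
      TensorProduct.rid k _ (LinearMap.lTensor _ ξ (TensorProduct.map A B x)) =
        A (TensorProduct.rid k _ (LinearMap.lTensor _ (ξ ∘ₗ B) x)) := by
    intro A B ξ x
    induction x using TensorProduct.induction_on with
    | zero => simp
    | tmul m v => simp
    | add x y hx hy => simp only [map_add, hx, hy]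
  have hval : ∀ (x : X) (ξ : Module.Dual k X) (w : (Y ⊗[k] Y) ⊗[k] X),
      T ((TensorProduct.rid k _ (LinearMap.lTensor _ ξ w)) ⊗ₜ x) = ξ (contr T w x) := by
    intro x ξ w
    induction w using TensorProduct.induction_on with
    | zero => simp
    | tmul m v =>
      rw [contr_tmul, map_smul, LinearMap.lTensor_tmul, TensorProduct.rid_tmul,
        ← TensorProduct.smul_tmul', map_smul, smul_eq_mul, smul_eq_mul, mul_comm]
    | add y z hy hz =>
      rw [map_add, map_add, TensorProduct.add_tmul, map_add, hy, hz, map_add,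
        LinearMap.add_apply, map_add]
  have hbij : Function.Bijective (contr T w) := by
    refine bijective_of_trace hX (ρ := ρ) ?_ ?_
    · intro g x
      exact contr_isHom hw hT (g, 1) x
    · rw [trace_contr, h1]
      exact one_ne_zero
  have hrj : ∀ ξ, TensorProduct.curry T (j ξ) = ξ ∘ₗ contr T w := by
    intro ξ
    refine LinearMap.ext fun x => ?_
    rw [TensorProduct.curry_apply, hj, hval]
    rfl
  have hcomp : ∀ ξ, (TensorProduct.curry T ∘ₗ Pool.Agent.Helper38.Gamma.ofPi)
      ((Pool.Agent.Helper38.Gamma.toPi ∘ₗ j) ξ) = ξ ∘ₗ contr T w := by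
    intro ξ
    rw [LinearMap.comp_apply, LinearMap.comp_apply, Pool.Agent.Helper38.Gamma.ofPi_toPi, hrj]
  have hsurj : Function.Surjective ((TensorProduct.curry T ∘ₗ Pool.Agent.Helper38.Gamma.ofPi) ∘ₗ
      (Pool.Agent.Helper38.Gamma.toPi ∘ₗ j)) := by
    intro η
    let e := LinearEquiv.ofBijective (contr T w) hbij
    refine ⟨η ∘ₗ e.symm.toLinearMap, ?_⟩
    rw [LinearMap.comp_apply, hcomp]
    refine LinearMap.ext fun x => ?_
    rw [LinearMap.comp_apply, LinearMap.comp_apply, LinearEquiv.coe_coe]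
    congr 1
    exact e.symm_apply_apply x
  refine Pool.Agent.Helper38.Gamma.key (ι := Fin 2) hPP hG σ ρ.dual hodd hY.2
    (Pool.Agent.Helper38.Gamma.toPi ∘ₗ j) (TensorProduct.curry T ∘ₗ Pool.Agent.Helper38.Gamma.ofPi)
    ?_ ?_ ?_ ?_ ?_ (Or.inr hsurj)
  · intro g ξ
    rw [LinearMap.comp_apply, LinearMap.comp_apply, ← Pool.Agent.Helper38.Gamma.toPi_map]
    congr 1
    rw [hj, hj]
    conv_rhs => rw [← hwI.1 g⁻¹]
    rw [nat, ← LinearMap.comp_apply, ← TensorProduct.map_comp]
    have e : σ g ∘ₗ σ g⁻¹ = LinearMap.id := by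
      rw [← Module.End.mul_eq_comp, ← map_mul, mul_inv_cancel, map_one]
      rfl
    rw [e, TensorProduct.map_id, LinearMap.id_apply]
    rfl
  · intro g x
    rw [LinearMap.comp_apply, LinearMap.comp_apply, Pool.Agent.Helper38.Gamma.ofPi_map]
    refine LinearMap.ext fun v => ?_
    rw [Representation.dual_apply, Module.Dual.transpose_apply, LinearMap.comp_apply,
      TensorProduct.curry_apply, TensorProduct.curry_apply,
      ← hTI.1 g (Pool.Agent.Helper38.Gamma.ofPi x ⊗ₜ (ρ g⁻¹) v), TensorProduct.map_tmul,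
      rep_inv_apply]
  · intro p ξ
    rw [LinearMap.comp_apply]
    rcases Pool.Agent.Helper38.Gamma.perm_fin_two p with rfl | rfl
    · exact hp1 _
    · rw [hp2, Pool.Agent.Helper38.Gamma.toPi_swap]
      congr 1
      rw [hj]
      conv_rhs => rw [← hwI.2]
      rw [nat, LinearMap.comp_id]
      rfl
  · intro p x
    rcases Pool.Agent.Helper38.Gamma.perm_fin_two p with rfl | rfl
    · rw [hp1]
    · rw [hp2, LinearMap.comp_apply, LinearMap.comp_apply, Pool.Agent.Helper38.Gamma.ofPi_swap]
      refine LinearMap.ext fun v => ?_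
      rw [TensorProduct.curry_apply, TensorProduct.curry_apply,
        ← hTI.2 (Pool.Agent.Helper38.Gamma.ofPi x ⊗ₜ v), TensorProduct.map_tmul]
      rfl
  · intro hn
    obtain ⟨n, hn⟩ := hn
    have h2 : Function.Surjective (((TensorProduct.curry T ∘ₗ Pool.Agent.Helper38.Gamma.ofPi) ∘ₗ
      (Pool.Agent.Helper38.Gamma.toPi ∘ₗ j) : Module.End k (Module.Dual k X)) ^ n) := by
      rw [Module.End.coe_pow]
      exact hsurj.iterate n
    rw [hn] at h2
    have := hX.1
    obtain ⟨ξ, hξ⟩ := exists_ne (0 : Module.Dual k X)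
    obtain ⟨η, hη⟩ := h2 ξ
    apply hξ
    rw [← hη]
    rfl

end Main

end Pool.Agent.AMP
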