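import Mathlib
import Pool.Agent.AMP.Key

/-! The module `N(Y) ⊗ X` has a trivial summand if and only if `X` and `Y` have one. -/

set_option autoImplicit false

namespace Pool.Agent.AMP

open TensorProduct

section Sub

variable {k G M : Type} [Field k] [Group G] [AddCommGroup M] [Module k M]

/-- A submodule as a module. -/
def sub (ρ : Representation k G M) (U : Submodule k M) (hU : ∀ g, ∀ x ∈ U, ρ g x ∈ U) :
    Rep' k G U where
  toFun g := (ρ g).restrict (hU g)
  map_one' := by
    refine LinearMap.ext fun x => Subtype.ext ?_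
    rw [LinearMap.coe_restrict_apply, map_one]
    rfl
  map_mul' a b := by
    refine LinearMap.ext fun x => Subtype.ext ?_
    rw [LinearMap.coe_restrict_apply, map_mul]
    rfl

theorem sub_apply (ρ : Representation k G M) (U : Submodule k M)
    (hU : ∀ g, ∀ x ∈ U, ρ g x ∈ U) (g : G) (x : U) : (sub ρ U hU g x : M) = ρ g x := rfl

theorem isHom_subtype (ρ : Representation k G M) (U : Submodule k M)
    (hU : ∀ g, ∀ x ∈ U, ρ g x ∈ U) : IsHom (sub ρ U hU) ρ U.subtype := fun _ _ => rfl

theorem isHom_proj (ρ : Representation k G M) {U W : Submodule k M}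
    (hU : ∀ g, ∀ x ∈ U, ρ g x ∈ U) (hW : ∀ g, ∀ x ∈ W, ρ g x ∈ W) (hc : IsCompl U W) :
    IsHom ρ (sub ρ U hU) (U.projectionOnto W hc) := by
  intro g x
  have h : ∀ y : M, ∃ (u : U) (w : W), (u : M) + w = y := by
    intro y
    obtain ⟨u, w, h1, _⟩ := Submodule.existsUnique_add_of_isCompl hc y
    exact ⟨u, w, h1⟩
  obtain ⟨u, w, rfl⟩ := h x
  rw [map_add, map_add, map_add, Submodule.projectionOnto_apply_left,
    Submodule.projectionOnto_apply_right, add_zero,
    Submodule.projectionOnto_apply_of_mem_right hc (hW g w w.2), add_zero]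
  exact Submodule.projectionOnto_apply_left hc (sub ρ U hU g u)

theorem proj_add {U W : Submodule k M} (hc : IsCompl U W) (x : M) :
    (U.projectionOnto W hc x : M) + (W.projectionOnto U hc.symm x : M) = x := by
  obtain ⟨u, w, rfl, _⟩ := Submodule.existsUnique_add_of_isCompl hc x
  simp

/-- The two projections of a decomposition. -/
theorem finrank_lt {U W : Submodule k M} [FiniteDimensional k M] (hc : IsCompl U W)
    (hW : W ≠ ⊥) : Module.finrank k U < Module.finrank k M := by
  have h := Submodule.finrank_add_eq_of_isCompl hc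
  have h2 : 0 < Module.finrank k W := by
    rw [Nat.pos_iff_ne_zero]
    intro h0
    exact hW (Submodule.finrank_eq_zero.mp h0)
  omega

end Sub

section Tens

variable {k G X Y X' Y' : Type} [Field k] [Group G] [AddCommGroup X] [Module k X]
  [AddCommGroup Y] [Module k Y] [AddCommGroup X'] [Module k X'] [AddCommGroup Y'] [Module k Y']

theorem map_map' {A B C A' B' C' : Type} [AddCommGroup A] [Module k A] [AddCommGroup B]
    [Module k B] [AddCommGroup C] [Module k C] [AddCommGroup A'] [Module k A']
    [AddCommGroup B'] [Module k B'] [AddCommGroup C'] [Module k C'] (f : A →ₗ[k] B)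
    (g : B →ₗ[k] C) (f' : A' →ₗ[k] B') (g' : B' →ₗ[k] C') (x : A ⊗[k] A') :
    TensorProduct.map g g' (TensorProduct.map f f' x) =
      TensorProduct.map (g ∘ₗ f) (g' ∘ₗ f') x := by
  rw [TensorProduct.map_comp]
  rfl

theorem comm_map₂ (A B : Y →ₗ[k] Y') (x : Y ⊗[k] Y) :
    TensorProduct.comm k Y' Y' (TensorProduct.map A B x) =
      TensorProduct.map B A (TensorProduct.comm k Y Y x) := by
  induction x using TensorProduct.induction_on with
  | zero => simp
  | tmul m v => simp
  | add x y hx hy => simp only [map_add, hx, hy]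

/-- Maps of `N(Y) ⊗ X` induced by maps of `X` and `Y`. -/
theorem isHom_tens {σ : Representation k G Y} {σ' : Representation k G Y'}
    {ρ : Representation k G X} {ρ' : Representation k G X'} {f : Y →ₗ[k] Y'} {h : X →ₗ[k] X'}
    (hf : IsHom σ σ' f) (hh : IsHom ρ ρ' h) :
    IsHom (tens σ ρ) (tens σ' ρ') (TensorProduct.map (TensorProduct.map f f) h) := by
  have h1 : ∀ g x, TensorProduct.map (TensorProduct.map f f) h (tens σ ρ (g, 1) x) =
      tens σ' ρ' (g, 1) (TensorProduct.map (TensorProduct.map f f) h x) := by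
    intro g x
    rw [tens_one_right, tens_one_right, map_map', map_map', ← TensorProduct.map_comp,
      ← TensorProduct.map_comp]
    have e1 : f ∘ₗ σ g = σ' g ∘ₗ f := LinearMap.ext (hf g)
    have e2 : h ∘ₗ ρ g = ρ' g ∘ₗ h := LinearMap.ext (hh g)
    rw [e1, e2]
  rintro ⟨g, s⟩ x
  rw [tens_apply, h1, tens_apply σ' ρ' g s]
  congr 1
  by_cases hs : s = 1
  · subst hs
    exact h1 1 x
  · rw [tens_one_left σ ρ hs, tens_one_left σ' ρ' hs, map_map', map_map']
    congr 2
    refine LinearMap.ext fun y => ?_
    exact (comm_map₂ f f y).symm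

/-- A nonzero value on the part of `w` belonging to direct summands of `X` and `Y`. -/
theorem triv_tens_of_ne {σ : Representation k G Y} {σ' : Representation k G Y'}
    {ρ : Representation k G X} {ρ' : Representation k G X'} {p : Y →ₗ[k] Y'} {i : Y' →ₗ[k] Y}
    {q : X →ₗ[k] X'} {j : X' →ₗ[k] X} (hp : IsHom σ σ' p) (hi : IsHom σ' σ i)
    (hq : IsHom ρ ρ' q) (hj : IsHom ρ' ρ j) {T : (Y ⊗[k] Y) ⊗[k] X →ₗ[k] k}
    {w : (Y ⊗[k] Y) ⊗[k] X} (hw : InvVec (tens σ ρ) w) (hT : InvFun (tens σ ρ) T)
    (h : T (TensorProduct.map (TensorProduct.map (i ∘ₗ p) (i ∘ₗ p)) (j ∘ₗ q) w) ≠ 0) :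
    Triv (tens σ' ρ') := by
  refine triv_of_ne (w := TensorProduct.map (TensorProduct.map p p) q w)
    (T := T ∘ₗ TensorProduct.map (TensorProduct.map i i) j)
    (InvVec.map (isHom_tens hp hq) hw) (InvFun.comp (isHom_tens hi hj) hT) ?_
  rw [LinearMap.comp_apply, map_map', ← TensorProduct.map_comp]
  exact h

end Tens

section One

variable {k G : Type} [Field k] [Group G]

theorem trivial_of_finrank_one [CharP k 2] (hG : IsPGroup 2 G) {Y : Type} [AddCommGroup Y]
    [Module k Y] (σ : Representation k G Y) (h : Module.finrank k Y = 1) (g : G) (y : Y) :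
    σ g y = y := by
  obtain ⟨v, hv, hspan⟩ := finrank_eq_one_iff'.mp h
  obtain ⟨c, hc⟩ := hspan (σ g v)
  have hpow : ∀ n : ℕ, (σ (g ^ n)) v = c ^ n • v := by
    intro n
    induction n with
    | zero => rw [pow_zero, pow_zero, map_one, one_smul]; rfl
    | succ n ih =>
      rw [pow_succ', map_mul, Module.End.mul_apply, ih, map_smul, ← hc, smul_smul, pow_succ]
  obtain ⟨n, hn⟩ := hG g
  have h1 : c ^ 2 ^ n = 1 := by
    have h2 := hpow (2 ^ n)
    rw [hn, map_one, Module.End.one_apply] at h2
    have h3 : (1 - c ^ 2 ^ n) • v = 0 := by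
      rw [sub_smul, one_smul, ← h2, sub_self]
    rcases smul_eq_zero.mp h3 with h4 | h4
    · exact (sub_eq_zero.mp h4).symm
    · exact absurd h4 hv
  have h2 : (c - 1) ^ 2 ^ n = 0 := by
    have : Fact (Nat.Prime 2) := ⟨Nat.prime_two⟩
    rw [sub_pow_char_pow, h1, one_pow, sub_self]
  have h3 : c = 1 := sub_eq_zero.mp (eq_zero_of_pow_eq_zero h2)
  obtain ⟨d, rfl⟩ := hspan y
  rw [map_smul, ← hc, h3, one_smul]

variable {X Y : Type} [AddCommGroup X] [Module k X] [AddCommGroup Y] [Module k Y]

/-- `N(Y) ⊗ X` for a trivial module `Y` of dimension one. -/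
theorem triv_of_one {σ : Representation k G Y} {ρ : Representation k G X}
    (h1 : Module.finrank k Y = 1) (ht : ∀ g y, σ g y = y) (h : Triv (tens σ ρ)) :
    Triv σ ∧ Triv ρ := by
  obtain ⟨v, hv, hspan⟩ := finrank_eq_one_iff'.mp h1
  have : Nontrivial Y := ⟨⟨v, 0, hv⟩⟩
  obtain ⟨φ, hφv⟩ : ∃ φ : Module.Dual k Y, φ v ≠ 0 := by
    by_contra hcon
    push Not at hcon
    exact hv ((Module.forall_dual_apply_eq_zero_iff k v).mp hcon)
  obtain ⟨w, T, hw, hT, hTw⟩ := h
  refine ⟨triv_of_ne (fun g => ht g v) (T := φ) (fun g x => by rw [ht]) hφv, ?_⟩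
  let i : X →ₗ[k] (Y ⊗[k] Y) ⊗[k] X := TensorProduct.mk k (Y ⊗[k] Y) X (v ⊗ₜ v)
  let p : (Y ⊗[k] Y) ⊗[k] X →ₗ[k] X := TensorProduct.lift
    ((LinearMap.lsmul k X) ∘ₗ (TensorProduct.lift ((LinearMap.mul k k).compl₁₂ φ φ)))
  have hp : ∀ a b x, p ((a ⊗ₜ b) ⊗ₜ x) = (φ a * φ b) • x := fun a b x => rfl
  have hip : ∀ z, i (p z) = (φ v * φ v) • z := by
    intro z
    induction z using TensorProduct.induction_on with
    | zero => simp
    | tmul y x =>
      induction y using TensorProduct.induction_on with
      | zero => simp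
      | tmul a b =>
        obtain ⟨a, rfl⟩ := hspan a
        obtain ⟨b, rfl⟩ := hspan b
        rw [hp]
        simp only [i, map_smul, TensorProduct.mk_apply, smul_eq_mul, TensorProduct.smul_tmul',
          TensorProduct.tmul_smul, smul_smul]
        congr 3
        ring
      | add x y hx hy => rw [TensorProduct.add_tmul, map_add, map_add, hx, hy, smul_add]
    | add x y hx hy => rw [map_add, map_add, hx, hy, smul_add]
  refine triv_of_ne (w := p w) (T := T ∘ₗ i) ?_ ?_ ?_
  · intro g
    have h2 : ∀ z, p (TensorProduct.map (TensorProduct.map (σ g) (σ g)) (ρ g) z) =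
        ρ g (p z) := by
      intro z
      induction z using TensorProduct.induction_on with
      | zero => simp
      | tmul y x =>
        induction y using TensorProduct.induction_on with
        | zero => simp
        | tmul a b =>
          rw [TensorProduct.map_tmul, TensorProduct.map_tmul, hp, hp, ht, ht, map_smul]
        | add x y hx hy =>
          rw [TensorProduct.add_tmul, map_add, map_add, hx, hy, map_add, map_add]
      | add x y hx hy => rw [map_add, map_add, hx, hy, map_add, map_add]
    rw [← h2, (invVec_tens.mp hw).1]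
  · intro g x
    rw [LinearMap.comp_apply, LinearMap.comp_apply, ← (invFun_tens.mp hT).1 g (i x)]
    simp only [i, TensorProduct.mk_apply]
    rw [TensorProduct.map_tmul, TensorProduct.map_tmul, ht]
  · rw [LinearMap.comp_apply, hip, map_smul, hTw, smul_eq_mul, mul_one]
    exact mul_ne_zero hφv hφv

/-- If `X` and `Y` have a trivial summand, so has `N(Y) ⊗ X`. -/
theorem triv_tens {σ : Representation k G Y} {ρ : Representation k G X}
    (h : Triv σ) (h' : Triv ρ) : Triv (tens σ ρ) := by
  obtain ⟨y, S, hy, hS, h1⟩ := h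
  obtain ⟨x, R, hx, hR, h2⟩ := h'
  let T : (Y ⊗[k] Y) ⊗[k] X →ₗ[k] k := TensorProduct.lift
    ((LinearMap.mul k k).compl₁₂ (TensorProduct.lift ((LinearMap.mul k k).compl₁₂ S S)) R)
  have hT : ∀ a b z, T ((a ⊗ₜ b) ⊗ₜ z) = (S a * S b) * R z := fun a b z => rfl
  refine ⟨(y ⊗ₜ y) ⊗ₜ x, T, invVec_tens.mpr ⟨fun g => ?_, ?_⟩, invFun_tens.mpr
    ⟨fun g z => ?_, fun z => ?_⟩, ?_⟩
  · rw [TensorProduct.map_tmul, TensorProduct.map_tmul, hy, hx]
  · rw [TensorProduct.map_tmul]
    rfl
  · induction z using TensorProduct.induction_on with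
    | zero => simp
    | tmul y x =>
      induction y using TensorProduct.induction_on with
      | zero => simp
      | tmul a b =>
        rw [TensorProduct.map_tmul, TensorProduct.map_tmul, hT, hT, hS, hS, hR]
      | add x y hx hy =>
        rw [TensorProduct.add_tmul, map_add, map_add, hx, hy, map_add]
    | add x y hx hy => rw [map_add, map_add, hx, hy, map_add]
  · induction z using TensorProduct.induction_on with
    | zero => simp
    | tmul y x =>
      induction y using TensorProduct.induction_on with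
      | zero => simp
      | tmul a b =>
        rw [TensorProduct.map_tmul, LinearEquiv.coe_coe, TensorProduct.comm_tmul,
          LinearMap.id_apply, hT, hT, mul_comm (S b)]
      | add x y hx hy =>
        rw [TensorProduct.add_tmul, map_add, map_add, hx, hy, map_add]
    | add x y hx hy => rw [map_add, map_add, hx, hy, map_add]
  · rw [hT, h1, h2, mul_one, mul_one]

/-- The exchange of the two factors identifies the two mixed terms. -/
theorem mixed {σ : Representation k G Y} {ρ : Representation k G X}
    {T : (Y ⊗[k] Y) ⊗[k] X →ₗ[k] k} {w : (Y ⊗[k] Y) ⊗[k] X} (hw : InvVec (tens σ ρ) w)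
    (hT : InvFun (tens σ ρ) T) (A B : Y →ₗ[k] Y) (C : X →ₗ[k] X) :
    T (TensorProduct.map (TensorProduct.map A B) C w) =
      T (TensorProduct.map (TensorProduct.map B A) C w) := by
  rw [← (invFun_tens.mp hT).2 (TensorProduct.map (TensorProduct.map A B) C w), map_map']
  conv_rhs => rw [← (invVec_tens.mp hw).2]
  rw [map_map', LinearMap.comp_id, LinearMap.id_comp]
  congr 3
  refine LinearMap.ext fun x => ?_
  exact comm_map₂ A B x

theorem one_aux [IsAlgClosed k] [CharP k 2] [Finite G] (hG : IsPGroup 2 G) :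
    ∀ (n : ℕ) (X Y : Type) [AddCommGroup X] [Module k X] [FiniteDimensional k X]
      [AddCommGroup Y] [Module k Y] [FiniteDimensional k Y] (σ : Representation k G Y)
      (ρ : Representation k G X), Module.finrank k X + Module.finrank k Y = n →
      Triv (tens σ ρ) → Triv σ ∧ Triv ρ := by
  intro n
  induction n using Nat.strong_induction_on with
  | _ n ih =>
  intro X Y _ _ _ _ _ _ σ ρ hn h
  have h2 : ∀ c : k, c + c = 0 := CharTwo.add_self_eq_zero
  obtain ⟨w, T, hw, hT, h1⟩ := id h
  -- `X` and `Y` are not zero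
  have hX0 : Nontrivial X := by
    by_contra hX
    have hX' := not_nontrivial_iff_subsingleton.mp hX
    have : w = 0 := by
      have : Subsingleton ((Y ⊗[k] Y) ⊗[k] X) := inferInstance
      exact Subsingleton.elim _ _
    rw [this, map_zero] at h1
    exact zero_ne_one h1
  have hY0 : Nontrivial Y := by
    by_contra hY
    have hY' := not_nontrivial_iff_subsingleton.mp hY
    have : w = 0 := by
      have h3 : Subsingleton (Y ⊗[k] Y) := inferInstance
      have : Subsingleton ((Y ⊗[k] Y) ⊗[k] X) := inferInstance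
      exact Subsingleton.elim _ _
    rw [this, map_zero] at h1
    exact zero_ne_one h1
  by_cases hX : Indec ρ
  · by_cases hY : Indec σ
    · have h3 := finrank_of_triv_tens hG hY hX h
      exact triv_of_one h3 (trivial_of_finrank_one hG σ h3) h
    · -- decompose `Y`
      have hY' : ¬ ∀ U W : Submodule k Y, (∀ g, ∀ x ∈ U, σ g x ∈ U) →
          (∀ g, ∀ x ∈ W, σ g x ∈ W) → IsCompl U W → U = ⊥ ∨ W = ⊥ := fun h3 => hY ⟨hY0, h3⟩
      push Not at hY'
      obtain ⟨U, W, hU, hW, hc, hU0, hW0⟩ := hY'
      have hpU := isHom_proj σ hU hW hc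
      have hpW := isHom_proj σ hW hU hc.symm
      let eU : Y →ₗ[k] Y := U.subtype ∘ₗ U.projectionOnto W hc
      let eW : Y →ₗ[k] Y := W.subtype ∘ₗ W.projectionOnto U hc.symm
      have he : eU + eW = LinearMap.id := LinearMap.ext fun x => proj_add hc x
      have hsum : T w = T (TensorProduct.map (TensorProduct.map eU eU) LinearMap.id w) +
          T (TensorProduct.map (TensorProduct.map eW eW) LinearMap.id w) := by
        have h3 : w = TensorProduct.map (TensorProduct.map (eU + eW) (eU + eW))
            LinearMap.id w := by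
          rw [he, TensorProduct.map_id, TensorProduct.map_id, LinearMap.id_apply]
        conv_lhs => rw [h3]
        rw [TensorProduct.map_add_left, TensorProduct.map_add_right, TensorProduct.map_add_right,
          TensorProduct.map_add_left, TensorProduct.map_add_left, TensorProduct.map_add_left,
          LinearMap.add_apply, LinearMap.add_apply, LinearMap.add_apply, map_add, map_add,
          map_add, mixed hw hT eU eW]
        have h4 := h2 (T (TensorProduct.map (TensorProduct.map eW eU) LinearMap.id w))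
        linear_combination h4
      have hcase : ∀ (U' : Submodule k Y) (hU' : ∀ g, ∀ x ∈ U', σ g x ∈ U')
          (p : Y →ₗ[k] U') (hp : IsHom σ (sub σ U' hU') p) (hpi : ∀ x : U', p x = x)
          (hlt : Module.finrank k U' < Module.finrank k Y),
          T (TensorProduct.map (TensorProduct.map (U'.subtype ∘ₗ p) (U'.subtype ∘ₗ p))
            LinearMap.id w) ≠ 0 → Triv σ ∧ Triv ρ := by
        intro U' hU' p hp hpi hlt h3
        have h4 := triv_tens_of_ne hp (isHom_subtype σ U' hU') (isHom_id ρ) (isHom_id ρ) hw hT h3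
        obtain ⟨h5, h6⟩ := ih (Module.finrank k X + Module.finrank k U') (by omega) X U'
          (sub σ U' hU') ρ rfl h4
        exact ⟨Triv.of_maps (isHom_subtype σ U' hU') hp hpi h5, h6⟩
      rw [h1] at hsum
      by_cases h3 : T (TensorProduct.map (TensorProduct.map eU eU) LinearMap.id w) = 0
      · have h4 : T (TensorProduct.map (TensorProduct.map eW eW) LinearMap.id w) ≠ 0 := by
          intro h4
          rw [h3, h4, add_zero] at hsum
          exact one_ne_zero hsum
        exact hcase W hW _ hpW (fun x => Submodule.projectionOnto_apply_left hc.symm x)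
          (finrank_lt hc.symm hU0) h4
      · exact hcase U hU _ hpU (fun x => Submodule.projectionOnto_apply_left hc x)
          (finrank_lt hc hW0) h3
  · -- decompose `X`
    have hX' : ¬ ∀ U W : Submodule k X, (∀ g, ∀ x ∈ U, ρ g x ∈ U) →
        (∀ g, ∀ x ∈ W, ρ g x ∈ W) → IsCompl U W → U = ⊥ ∨ W = ⊥ := fun h3 => hX ⟨hX0, h3⟩
    push Not at hX'
    obtain ⟨U, W, hU, hW, hc, hU0, hW0⟩ := hX'
    have hpU := isHom_proj ρ hU hW hc
    have hpW := isHom_proj ρ hW hU hc.symm
    let eU : X →ₗ[k] X := U.subtype ∘ₗ U.projectionOnto W hc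
    let eW : X →ₗ[k] X := W.subtype ∘ₗ W.projectionOnto U hc.symm
    have he : eU + eW = LinearMap.id := LinearMap.ext fun x => proj_add hc x
    have hsum : T w = T (TensorProduct.map LinearMap.id eU w) +
        T (TensorProduct.map LinearMap.id eW w) := by
      have h3 : w = TensorProduct.map LinearMap.id (eU + eW) w := by
        rw [he, TensorProduct.map_id, LinearMap.id_apply]
      conv_lhs => rw [h3]
      rw [TensorProduct.map_add_right, LinearMap.add_apply, map_add]
    have hcase : ∀ (U' : Submodule k X) (hU' : ∀ g, ∀ x ∈ U', ρ g x ∈ U')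
        (p : X →ₗ[k] U') (hp : IsHom ρ (sub ρ U' hU') p) (hpi : ∀ x : U', p x = x)
        (hlt : Module.finrank k U' < Module.finrank k X),
        T (TensorProduct.map LinearMap.id (U'.subtype ∘ₗ p) w) ≠ 0 → Triv σ ∧ Triv ρ := by
      intro U' hU' p hp hpi hlt h3
      have h4 := triv_tens_of_ne (isHom_id σ) (isHom_id σ) hp (isHom_subtype ρ U' hU') hw hT (by
        rw [LinearMap.comp_id, TensorProduct.map_id]
        exact h3)
      obtain ⟨h5, h6⟩ := ih (Module.finrank k U' + Module.finrank k Y) (by omega) U' Y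
        σ (sub ρ U' hU') rfl h4
      exact ⟨h5, Triv.of_maps (isHom_subtype ρ U' hU') hp hpi h6⟩
    rw [h1] at hsum
    by_cases h3 : T (TensorProduct.map LinearMap.id eU w) = 0
    · have h4 : T (TensorProduct.map LinearMap.id eW w) ≠ 0 := by
        intro h4
        rw [h3, h4, add_zero] at hsum
        exact one_ne_zero hsum
      exact hcase W hW _ hpW (fun x => Submodule.projectionOnto_apply_left hc.symm x)
        (finrank_lt hc.symm hU0) h4
    · exact hcase U hU _ hpU (fun x => Submodule.projectionOnto_apply_left hc x)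
        (finrank_lt hc hW0) h3

/-- Theorem (1). -/
theorem triv_tens_iff [IsAlgClosed k] [CharP k 2] [Finite G] (hG : IsPGroup 2 G)
    [FiniteDimensional k X] [FiniteDimensional k Y] (σ : Representation k G Y)
    (ρ : Representation k G X) : Triv (tens σ ρ) ↔ Triv σ ∧ Triv ρ :=
  ⟨one_aux hG _ X Y σ ρ rfl, fun h => triv_tens h.1 h.2⟩

end One

end Pool.Agent.AMP
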