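import Mathlib
import Pool.Agent.AMP.One

/-! Spaces of linear maps as modules, and the trace pairing. -/

set_option autoImplicit false

namespace Pool.Agent.AMP

open TensorProduct

section

variable {k G X X' Y Y' : Type} [Field k] [Group G] [AddCommGroup X] [Module k X]
  [AddCommGroup X'] [Module k X'] [AddCommGroup Y] [Module k Y] [AddCommGroup Y'] [Module k Y']

/-- The space of linear maps as a module. -/
noncomputable def hom (ρ : Representation k G X) (ρ' : Representation k G X') :
    Rep' k G (X →ₗ[k] X') :=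
  Representation.linHom ρ ρ'

theorem hom_apply (ρ : Representation k G X) (ρ' : Representation k G X') (g : G)
    (f : X →ₗ[k] X') : hom ρ ρ' g f = ρ' g ∘ₗ f ∘ₗ ρ g⁻¹ := rfl

theorem invVec_hom {ρ : Representation k G X} {ρ' : Representation k G X'} {f : X →ₗ[k] X'} :
    InvVec (hom ρ ρ') f ↔ IsHom ρ ρ' f := by
  constructor
  · intro h g x
    have h1 := LinearMap.congr_fun (h g) (ρ g x)
    rw [hom_apply, LinearMap.comp_apply, LinearMap.comp_apply, rep_inv_apply'] at h1
    exact h1.symm
  · intro h g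
    rw [hom_apply]
    refine LinearMap.ext fun x => ?_
    rw [LinearMap.comp_apply, LinearMap.comp_apply, ← h, rep_inv_apply]

variable [FiniteDimensional k X] [FiniteDimensional k X']

variable (k X X') in
/-- The trace pairing. -/
noncomputable def pairing : (X' →ₗ[k] X) →ₗ[k] Module.Dual k (X →ₗ[k] X') :=
  LinearMap.mk₂ k (fun b a => LinearMap.trace k X (b ∘ₗ a))
    (fun b b' a => by rw [LinearMap.add_comp, map_add])
    (fun c b a => by rw [LinearMap.smul_comp, map_smul])
    (fun b a a' => by rw [LinearMap.comp_add, map_add])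
    (fun c b a => by rw [LinearMap.comp_smul, map_smul])

omit [FiniteDimensional k X] [FiniteDimensional k X'] in
theorem pairing_apply (b : X' →ₗ[k] X) (a : X →ₗ[k] X') :
    pairing k X X' b a = LinearMap.trace k X (b ∘ₗ a) := rfl

theorem pairing_injective : Function.Injective (pairing k X X') := by
  rw [← LinearMap.ker_eq_bot, LinearMap.ker_eq_bot']
  intro b hb
  refine LinearMap.ext fun y => ?_
  rw [LinearMap.zero_apply]
  refine (Module.forall_dual_apply_eq_zero_iff k (b y)).mp fun ξ => ?_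
  have h := LinearMap.congr_fun hb (LinearMap.smulRight ξ y)
  rw [pairing_apply, LinearMap.zero_apply] at h
  have h2 : b ∘ₗ LinearMap.smulRight ξ y = LinearMap.smulRight ξ (b y) := by
    refine LinearMap.ext fun x => ?_
    simp
  rw [h2, LinearMap.trace_smulRight] at h
  exact h

theorem exists_repr (T : (X →ₗ[k] X') →ₗ[k] k) :
    ∃ b : X' →ₗ[k] X, ∀ a, T a = LinearMap.trace k X (b ∘ₗ a) := by
  have hs : Function.Surjective (pairing k X X') := by
    refine (LinearMap.injective_iff_surjective_of_finrank_eq_finrank ?_).mp pairing_injective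
    have h : Module.finrank k (Module.Dual k (X →ₗ[k] X')) = Module.finrank k (X →ₗ[k] X') :=
      Subspace.dual_finrank_eq
    rw [h, Module.finrank_linearMap, Module.finrank_linearMap, mul_comm]
  obtain ⟨b, hb⟩ := hs T
  exact ⟨b, fun a => by rw [← hb]; rfl⟩

theorem repr_isHom {ρ : Representation k G X} {ρ' : Representation k G X'}
    {T : (X →ₗ[k] X') →ₗ[k] k} (hT : InvFun (hom ρ ρ') T) {b : X' →ₗ[k] X}
    (hb : ∀ a, T a = LinearMap.trace k X (b ∘ₗ a)) : IsHom ρ' ρ b := by
  intro g y
  have h : pairing k X X' (ρ g⁻¹ ∘ₗ b ∘ₗ ρ' g) = pairing k X X' b := by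
    refine LinearMap.ext fun a => ?_
    rw [pairing_apply, pairing_apply, ← hb, ← hT g a, hb, hom_apply]
    have e1 : (ρ g⁻¹ ∘ₗ b ∘ₗ ρ' g) ∘ₗ a = ρ g⁻¹ ∘ₗ (b ∘ₗ ρ' g ∘ₗ a) := by
      rfl
    have e2 : b ∘ₗ ρ' g ∘ₗ a ∘ₗ ρ g⁻¹ = (b ∘ₗ ρ' g ∘ₗ a) ∘ₗ ρ g⁻¹ := by
      rfl
    rw [e1, e2, LinearMap.trace_comp_comm']
  have h2 := LinearMap.congr_fun (pairing_injective h) y
  rw [← h2, LinearMap.comp_apply, LinearMap.comp_apply, rep_inv_apply]

/-- If the space of linear maps has a trivial summand, there are homomorphisms in both directions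
whose composite has trace one. -/
theorem maps_of_triv {ρ : Representation k G X} {ρ' : Representation k G X'}
    (h : Triv (hom ρ ρ')) : ∃ (a : X →ₗ[k] X') (b : X' →ₗ[k] X), IsHom ρ ρ' a ∧ IsHom ρ' ρ b ∧
      LinearMap.trace k X (b ∘ₗ a) = 1 := by
  obtain ⟨a, T, ha, hT, h1⟩ := h
  obtain ⟨b, hb⟩ := exists_repr T
  exact ⟨a, b, invVec_hom.mp ha, repr_isHom hT hb, by rw [← hb, h1]⟩

theorem iso_of_triv_hom {ρ : Representation k G X} {ρ' : Representation k G X'}
    (hX : Indec ρ) (hX' : Indec ρ') (h : Triv (hom ρ ρ')) : Iso ρ ρ' := by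
  obtain ⟨a, b, ha, hb, h1⟩ := maps_of_triv h
  have h2 : Function.Bijective (b ∘ₗ a) := bijective_of_trace hX (hb.comp ha) (by
    rw [h1]
    exact one_ne_zero)
  have h3 : Function.Bijective (a ∘ₗ b) := bijective_of_trace hX' (ha.comp hb) (by
    rw [LinearMap.trace_comp_comm', h1]
    exact one_ne_zero)
  have hinj : Function.Injective a := by
    intro x y hxy
    apply h2.1
    rw [LinearMap.comp_apply, LinearMap.comp_apply, hxy]
  have hsurj : Function.Surjective a := by
    intro y
    obtain ⟨x, hx⟩ := h3.2 y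
    exact ⟨b x, hx⟩
  exact ⟨LinearEquiv.ofBijective a ⟨hinj, hsurj⟩, fun g x => ha g x⟩

end

section Big

variable {k G X X' Y Y' : Type} [Field k] [Group G] [AddCommGroup X] [Module k X]
  [AddCommGroup X'] [Module k X'] [AddCommGroup Y] [Module k Y] [AddCommGroup Y'] [Module k Y']
  [FiniteDimensional k X] [FiniteDimensional k X'] [FiniteDimensional k Y]
  [FiniteDimensional k Y']

variable (k X X' Y Y') in
/-- Linear maps from `N(Y) ⊗ X` to `N(Y') ⊗ X'`. -/
noncomputable def big : TT k (Y →ₗ[k] Y') (X →ₗ[k] X') ≃ₗ[k]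
    ((Y ⊗[k] Y) ⊗[k] X →ₗ[k] (Y' ⊗[k] Y') ⊗[k] X') :=
  (TensorProduct.congr (homTensorHomEquiv k Y Y Y' Y') (LinearEquiv.refl k (X →ₗ[k] X'))).trans
    (homTensorHomEquiv k (Y ⊗[k] Y) X (Y' ⊗[k] Y') X')

theorem big_tmul (a b : Y →ₗ[k] Y') (c : X →ₗ[k] X') :
    big k X X' Y Y' ((a ⊗ₜ b) ⊗ₜ c) = TensorProduct.map (TensorProduct.map a b) c := by
  rw [big, LinearEquiv.trans_apply, TensorProduct.congr_tmul, homTensorHomEquiv_apply,
    homTensorHomEquiv_apply]
  rfl

theorem big_g (σ : Representation k G Y) (σ' : Representation k G Y')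
    (ρ : Representation k G X) (ρ' : Representation k G X') (g : G)
    (z : TT k (Y →ₗ[k] Y') (X →ₗ[k] X')) :
    big k X X' Y Y' (TensorProduct.map (TensorProduct.map (hom σ σ' g) (hom σ σ' g))
      (hom ρ ρ' g) z) =
      TensorProduct.map (TensorProduct.map (σ' g) (σ' g)) (ρ' g) ∘ₗ big k X X' Y Y' z ∘ₗ
        TensorProduct.map (TensorProduct.map (σ g⁻¹) (σ g⁻¹)) (ρ g⁻¹) := by
  induction z using TensorProduct.induction_on with
  | zero => simp
  | tmul y c =>
    induction y using TensorProduct.induction_on with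
    | zero => simp
    | tmul a b =>
      rw [TensorProduct.map_tmul, TensorProduct.map_tmul, big_tmul, big_tmul, hom_apply,
        hom_apply, hom_apply, TensorProduct.map_comp, TensorProduct.map_comp,
        TensorProduct.map_comp, TensorProduct.map_comp]
    | add x y hx hy =>
      rw [TensorProduct.add_tmul, map_add, map_add, hx, hy, map_add, LinearMap.add_comp,
        LinearMap.comp_add]
  | add x y hx hy =>
    rw [map_add, map_add, hx, hy, map_add, LinearMap.add_comp, LinearMap.comp_add]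

theorem big_swap (z : TT k (Y →ₗ[k] Y') (X →ₗ[k] X')) :
    big k X X' Y Y' (TensorProduct.map (TensorProduct.comm k _ _).toLinearMap
      LinearMap.id z) =
      TensorProduct.map (TensorProduct.comm k Y' Y').toLinearMap LinearMap.id ∘ₗ
        big k X X' Y Y' z ∘ₗ
        TensorProduct.map (TensorProduct.comm k Y Y).toLinearMap LinearMap.id := by
  induction z using TensorProduct.induction_on with
  | zero => simp
  | tmul y c =>
    induction y using TensorProduct.induction_on with
    | zero => simp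
    | tmul a b =>
      rw [TensorProduct.map_tmul, LinearEquiv.coe_coe, TensorProduct.comm_tmul, big_tmul,
        big_tmul, LinearMap.id_apply, ← TensorProduct.map_comp, ← TensorProduct.map_comp,
        LinearMap.comp_id, LinearMap.id_comp]
      congr 1
      refine LinearMap.ext fun x => ?_
      rw [LinearMap.comp_apply, LinearMap.comp_apply, LinearEquiv.coe_coe, LinearEquiv.coe_coe,
        comm_map₂, comm_comm]
    | add x y hx hy =>
      rw [TensorProduct.add_tmul, map_add, map_add, hx, hy, map_add, LinearMap.add_comp,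
        LinearMap.comp_add]
  | add x y hx hy =>
    rw [map_add, map_add, hx, hy, map_add, LinearMap.add_comp, LinearMap.comp_add]

theorem isHom_tens_iff {σ : Representation k G Y} {σ' : Representation k G Y'}
    {ρ : Representation k G X} {ρ' : Representation k G X'}
    {f : (Y ⊗[k] Y) ⊗[k] X →ₗ[k] (Y' ⊗[k] Y') ⊗[k] X'} (hf : IsHom (tens σ ρ) (tens σ' ρ') f) :
    (∀ g, TensorProduct.map (TensorProduct.map (σ' g) (σ' g)) (ρ' g) ∘ₗ f =
      f ∘ₗ TensorProduct.map (TensorProduct.map (σ g) (σ g)) (ρ g)) ∧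
    TensorProduct.map (TensorProduct.comm k Y' Y').toLinearMap LinearMap.id ∘ₗ f =
      f ∘ₗ TensorProduct.map (TensorProduct.comm k Y Y).toLinearMap LinearMap.id := by
  refine ⟨fun g => LinearMap.ext fun x => ?_, LinearMap.ext fun x => ?_⟩
  · rw [LinearMap.comp_apply, LinearMap.comp_apply, ← tens_one_right, ← tens_one_right]
    exact (hf _ _).symm
  · rw [LinearMap.comp_apply, LinearMap.comp_apply, ← tens_one_left σ ρ gen_ne,
      ← tens_one_left σ' ρ' gen_ne]
    exact (hf _ _).symm

/-- A homomorphism, regarded as a vector, is invariant. -/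
theorem invVec_big {σ : Representation k G Y} {σ' : Representation k G Y'}
    {ρ : Representation k G X} {ρ' : Representation k G X'}
    {f : (Y ⊗[k] Y) ⊗[k] X →ₗ[k] (Y' ⊗[k] Y') ⊗[k] X'} (hf : IsHom (tens σ ρ) (tens σ' ρ') f) :
    InvVec (tens (hom σ σ') (hom ρ ρ')) ((big k X X' Y Y').symm f) := by
  obtain ⟨h1, h2⟩ := isHom_tens_iff hf
  refine invVec_tens.mpr ⟨fun g => ?_, ?_⟩
  · apply (big k X X' Y Y').injective
    rw [big_g, LinearEquiv.apply_symm_apply, ← LinearMap.comp_assoc, h1, LinearMap.comp_assoc,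
      ← TensorProduct.map_comp, ← TensorProduct.map_comp, ← Module.End.mul_eq_comp,
      ← Module.End.mul_eq_comp, ← map_mul, ← map_mul, mul_inv_cancel, map_one, map_one]
    change f ∘ₗ TensorProduct.map (TensorProduct.map LinearMap.id LinearMap.id)
      LinearMap.id = f
    rw [TensorProduct.map_id, TensorProduct.map_id, LinearMap.comp_id]
  · apply (big k X X' Y Y').injective
    rw [big_swap, LinearEquiv.apply_symm_apply, ← LinearMap.comp_assoc, h2,
      LinearMap.comp_assoc, ← TensorProduct.map_comp, LinearMap.comp_id]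
    have : (TensorProduct.comm k Y Y).toLinearMap ∘ₗ (TensorProduct.comm k Y Y).toLinearMap =
        LinearMap.id := LinearMap.ext fun x => comm_comm x
    rw [this, TensorProduct.map_id, LinearMap.comp_id]

/-- The functional attached to a linear map in the other direction. -/
noncomputable def bigF (f : (Y' ⊗[k] Y') ⊗[k] X' →ₗ[k] (Y ⊗[k] Y) ⊗[k] X) :
    TT k (Y →ₗ[k] Y') (X →ₗ[k] X') →ₗ[k] k :=
  pairing k ((Y ⊗[k] Y) ⊗[k] X) ((Y' ⊗[k] Y') ⊗[k] X') f ∘ₗ (big k X X' Y Y').toLinearMap

theorem bigF_apply (f : (Y' ⊗[k] Y') ⊗[k] X' →ₗ[k] (Y ⊗[k] Y) ⊗[k] X)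
    (z : TT k (Y →ₗ[k] Y') (X →ₗ[k] X')) :
    bigF f z = LinearMap.trace k _ (f ∘ₗ big k X X' Y Y' z) := rfl

/-- A homomorphism in the other direction, regarded as a functional, is invariant. -/
theorem invFun_big {σ : Representation k G Y} {σ' : Representation k G Y'}
    {ρ : Representation k G X} {ρ' : Representation k G X'}
    {f : (Y' ⊗[k] Y') ⊗[k] X' →ₗ[k] (Y ⊗[k] Y) ⊗[k] X} (hf : IsHom (tens σ' ρ') (tens σ ρ) f) :
    InvFun (G := G × C2) (M := TT k (Y →ₗ[k] Y') (X →ₗ[k] X')) (tens (hom σ σ') (hom ρ ρ'))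
      (bigF f) := by
  obtain ⟨h1, h2⟩ := isHom_tens_iff hf
  refine invFun_tens.mpr ⟨fun g z => ?_, fun z => ?_⟩
  · rw [bigF_apply, bigF_apply, big_g, ← LinearMap.comp_assoc, ← h1, LinearMap.comp_assoc,
      LinearMap.trace_comp_comm', LinearMap.comp_assoc, LinearMap.comp_assoc,
      ← TensorProduct.map_comp, ← TensorProduct.map_comp, ← Module.End.mul_eq_comp,
      ← Module.End.mul_eq_comp, ← map_mul, ← map_mul, inv_mul_cancel, map_one, map_one]
    change LinearMap.trace k _ (f ∘ₗ _ ∘ₗ
      TensorProduct.map (TensorProduct.map LinearMap.id LinearMap.id) LinearMap.id) = _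
    rw [TensorProduct.map_id, TensorProduct.map_id, LinearMap.comp_id]
  · rw [bigF_apply, bigF_apply, big_swap, ← LinearMap.comp_assoc, ← h2, LinearMap.comp_assoc,
      LinearMap.trace_comp_comm', LinearMap.comp_assoc, LinearMap.comp_assoc,
      ← TensorProduct.map_comp, LinearMap.comp_id]
    have : (TensorProduct.comm k Y Y).toLinearMap ∘ₗ (TensorProduct.comm k Y Y).toLinearMap =
        LinearMap.id := LinearMap.ext fun x => comm_comm x
    rw [this, TensorProduct.map_id, LinearMap.comp_id]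

end Big

section Main

variable {k G X X' Y Y' : Type} [Field k] [IsAlgClosed k] [CharP k 2] [Group G] [Finite G]
  [AddCommGroup X] [Module k X]
  [AddCommGroup X'] [Module k X'] [AddCommGroup Y] [Module k Y] [AddCommGroup Y'] [Module k Y']
  [FiniteDimensional k X] [FiniteDimensional k X'] [FiniteDimensional k Y]
  [FiniteDimensional k Y']

/-- Homomorphisms between `N(Y) ⊗ X` and `N(Y') ⊗ X'` in both directions, whose composite has
nonzero trace. -/
theorem triv_hom_of_maps (hG : IsPGroup 2 G) {σ : Representation k G Y}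
    {σ' : Representation k G Y'} {ρ : Representation k G X} {ρ' : Representation k G X'}
    {a : (Y ⊗[k] Y) ⊗[k] X →ₗ[k] (Y' ⊗[k] Y') ⊗[k] X'}
    {b : (Y' ⊗[k] Y') ⊗[k] X' →ₗ[k] (Y ⊗[k] Y) ⊗[k] X}
    (ha : IsHom (tens σ ρ) (tens σ' ρ') a) (hb : IsHom (tens σ' ρ') (tens σ ρ) b)
    (h : LinearMap.trace k _ (b ∘ₗ a) ≠ 0) : Triv (hom σ σ') ∧ Triv (hom ρ ρ') := by
  refine (triv_tens_iff hG (hom σ σ') (hom ρ ρ')).mp ?_
  refine triv_of_ne (invVec_big ha) (invFun_big hb) ?_
  rw [bigF_apply, LinearEquiv.apply_symm_apply]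
  exact h

end Main

end Pool.Agent.AMP
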