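import Mathlib
import Pool.Agent.AMP.Hom

/-! Endomorphisms of `N(Y) ⊗ X` for indecomposable modules of odd dimension. -/

set_option autoImplicit false

namespace Pool.Agent.AMP

open TensorProduct

section

variable {k G Y : Type} [Field k] [Group G] [AddCommGroup Y] [Module k Y]

theorem trace_hom (σ : Representation k G Y) (g : G) (a : Y →ₗ[k] Y) :
    LinearMap.trace k Y (hom σ σ g a) = LinearMap.trace k Y a := by
  rw [hom_apply, ← Module.End.mul_eq_comp, ← Module.End.mul_eq_comp, LinearMap.trace_mul_comm,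
    mul_assoc, ← map_mul, inv_mul_cancel, map_one, mul_one]

variable (k Y) in
/-- The linear maps of trace zero. -/
noncomputable def tl : Submodule k (Y →ₗ[k] Y) := LinearMap.ker (LinearMap.trace k Y)

theorem tl_inv (σ : Representation k G Y) : ∀ g, ∀ x ∈ tl k Y, hom σ σ g x ∈ tl k Y := by
  intro g x hx
  have hx' : LinearMap.trace k Y x = 0 := hx
  change LinearMap.trace k Y _ = 0
  rw [trace_hom, hx']

theorem trace_id_odd [CharP k 2] [FiniteDimensional k Y] (h : Odd (Module.finrank k Y)) :
    LinearMap.trace k Y LinearMap.id = 1 := by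
  rw [LinearMap.trace_id, cast_odd h]

/-- The projection to the linear maps of trace zero. -/
noncomputable def pr [CharP k 2] [FiniteDimensional k Y] (h : Odd (Module.finrank k Y)) :
    (Y →ₗ[k] Y) →ₗ[k] tl k Y :=
  LinearMap.codRestrict (tl k Y)
    (LinearMap.id - LinearMap.smulRight (LinearMap.trace k Y) LinearMap.id) (fun a => by
      change LinearMap.trace k Y _ = 0
      rw [LinearMap.sub_apply, LinearMap.smulRight_apply, map_sub, map_smul, trace_id_odd h,
        LinearMap.id_apply, smul_eq_mul, mul_one, sub_self])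

theorem pr_coe [CharP k 2] [FiniteDimensional k Y] (h : Odd (Module.finrank k Y))
    (a : Y →ₗ[k] Y) : (pr h a : Y →ₗ[k] Y) = a - LinearMap.trace k Y a • LinearMap.id := rfl

theorem pr_apply_mem [CharP k 2] [FiniteDimensional k Y] (h : Odd (Module.finrank k Y))
    (a : tl k Y) : pr h (a : Y →ₗ[k] Y) = a := by
  refine Subtype.ext ?_
  have ha : LinearMap.trace k Y (a : Y →ₗ[k] Y) = 0 := a.2
  rw [pr_coe, ha, zero_smul, sub_zero]

theorem hom_id (σ : Representation k G Y) (g : G) :
    hom σ σ g LinearMap.id = LinearMap.id := invVec_hom.mpr (isHom_id σ) g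

theorem isHom_pr [CharP k 2] [FiniteDimensional k Y] (h : Odd (Module.finrank k Y))
    (σ : Representation k G Y) : IsHom (hom σ σ) (sub (hom σ σ) (tl k Y) (tl_inv σ)) (pr h) := by
  intro g a
  refine Subtype.ext ?_
  rw [pr_coe, sub_apply, pr_coe, trace_hom, map_sub, map_smul, hom_id]

theorem tl_not_triv [IsAlgClosed k] [CharP k 2] [FiniteDimensional k Y]
    (h : Odd (Module.finrank k Y)) {σ : Representation k G Y} (hI : Indec σ) :
    ¬ Triv (sub (hom σ σ) (tl k Y) (tl_inv σ)) := by
  rintro ⟨w, T, hw, hT, h1⟩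
  obtain ⟨b, hb⟩ := exists_repr (T ∘ₗ pr h)
  have hb' : IsHom σ σ b := repr_isHom (InvFun.comp (isHom_pr h σ) hT) hb
  have hw' : IsHom σ σ (w : Y →ₗ[k] Y) := by
    refine invVec_hom.mp ?_
    exact InvVec.map (isHom_subtype _ _ _) hw
  have h2 := hb w
  rw [LinearMap.comp_apply, pr_apply_mem, h1, trace_comp_eq_zero hI h hw' w.2 hb'] at h2
  exact one_ne_zero h2

end

section Main

variable {k G X Y : Type} [Field k] [IsAlgClosed k] [CharP k 2] [Group G] [Finite G]
  [AddCommGroup X] [Module k X] [FiniteDimensional k X]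
  [AddCommGroup Y] [Module k Y] [FiniteDimensional k Y]

variable (k X Y) in
/-- The contraction `(a ⊗ b) ⊗ c ↦ tr a tr b c`. -/
noncomputable def cl : TT k (Y →ₗ[k] Y) (X →ₗ[k] X) →ₗ[k] (X →ₗ[k] X) := TensorProduct.lift
  ((LinearMap.lsmul k (X →ₗ[k] X)) ∘ₗ (TensorProduct.lift
    ((LinearMap.mul k k).compl₁₂ (LinearMap.trace k Y) (LinearMap.trace k Y))))

theorem cl_tmul (a b : Y →ₗ[k] Y) (c : X →ₗ[k] X) : cl k X Y ((a ⊗ₜ b) ⊗ₜ c) =
    (LinearMap.trace k Y a * LinearMap.trace k Y b) • c := rfl

theorem trace_cl (z : TT k (Y →ₗ[k] Y) (X →ₗ[k] X)) :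
    LinearMap.trace k X (cl k X Y z) = LinearMap.trace k _ (big k X X Y Y z) := by
  induction z using TensorProduct.induction_on with
  | zero => simp
  | tmul y c =>
    induction y using TensorProduct.induction_on with
    | zero => simp
    | tmul a b =>
      rw [cl_tmul, big_tmul, map_smul, LinearMap.trace_tensorProduct',
        LinearMap.trace_tensorProduct', smul_eq_mul]
    | add x y hx hy =>
      rw [TensorProduct.add_tmul, map_add, map_add, map_add, map_add, hx, hy]
  | add x y hx hy => rw [map_add, map_add, map_add, map_add, hx, hy]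

theorem cl_hom (σ : Representation k G Y) (ρ : Representation k G X) (g : G)
    (z : TT k (Y →ₗ[k] Y) (X →ₗ[k] X)) :
    cl k X Y (TensorProduct.map (TensorProduct.map (hom σ σ g) (hom σ σ g)) (hom ρ ρ g) z) =
      hom ρ ρ g (cl k X Y z) := by
  induction z using TensorProduct.induction_on with
  | zero => simp
  | tmul y c =>
    induction y using TensorProduct.induction_on with
    | zero => simp
    | tmul a b =>
      rw [TensorProduct.map_tmul, TensorProduct.map_tmul, cl_tmul, cl_tmul, trace_hom,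
        trace_hom, map_smul]
    | add x y hx hy =>
      rw [TensorProduct.add_tmul, map_add, map_add, map_add, map_add, hx, hy]
  | add x y hx hy => rw [map_add, map_add, map_add, map_add, hx, hy]

theorem map_tr (z : TT k (Y →ₗ[k] Y) (X →ₗ[k] X)) :
    TensorProduct.map (TensorProduct.map
      (LinearMap.smulRight (LinearMap.trace k Y) (LinearMap.id : Y →ₗ[k] Y))
      (LinearMap.smulRight (LinearMap.trace k Y) (LinearMap.id : Y →ₗ[k] Y))) LinearMap.id z =
      ((LinearMap.id : Y →ₗ[k] Y) ⊗ₜ (LinearMap.id : Y →ₗ[k] Y)) ⊗ₜ cl k X Y z := by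
  induction z using TensorProduct.induction_on with
  | zero => simp
  | tmul y c =>
    induction y using TensorProduct.induction_on with
    | zero => simp
    | tmul a b =>
      rw [TensorProduct.map_tmul, TensorProduct.map_tmul, cl_tmul, LinearMap.smulRight_apply,
        LinearMap.smulRight_apply, LinearMap.id_apply, TensorProduct.tmul_smul,
        ← TensorProduct.smul_tmul', TensorProduct.tmul_smul, ← TensorProduct.smul_tmul',
        ← TensorProduct.smul_tmul', smul_smul, mul_comm]
    | add x y hx hy =>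
      rw [TensorProduct.add_tmul, map_add, map_add, hx, hy, TensorProduct.tmul_add]
  | add x y hx hy => rw [map_add, map_add, hx, hy, TensorProduct.tmul_add]

/-- The trace form on the endomorphisms of `N(Y) ⊗ X`. -/
theorem trace_formula (hG : IsPGroup 2 G) {σ : Representation k G Y}
    {ρ : Representation k G X} (hY : Indec σ) (hX : Indec ρ) (oY : Odd (Module.finrank k Y))
    (oX : Odd (Module.finrank k X)) {f g : (Y ⊗[k] Y) ⊗[k] X →ₗ[k] (Y ⊗[k] Y) ⊗[k] X}
    (hf : IsHom (tens σ ρ) (tens σ ρ) f) (hg : IsHom (tens σ ρ) (tens σ ρ) g)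
    (h0 : LinearMap.trace k _ f = 0) : LinearMap.trace k _ (g ∘ₗ f) = 0 := by
  have h2 : ∀ c : k, c + c = 0 := CharTwo.add_self_eq_zero
  have hw := invVec_big hf
  have hT := invFun_big hg
  let w := (big k X X Y Y).symm f
  let T := bigF g
  have hTw : T w = LinearMap.trace k _ (g ∘ₗ f) := by
    rw [bigF_apply]
    simp only [w]
    rw [LinearEquiv.apply_symm_apply]
  let P1 : (Y →ₗ[k] Y) →ₗ[k] (Y →ₗ[k] Y) :=
    LinearMap.smulRight (LinearMap.trace k Y) (LinearMap.id : Y →ₗ[k] Y)
  let P0 : (Y →ₗ[k] Y) →ₗ[k] (Y →ₗ[k] Y) := (tl k Y).subtype ∘ₗ pr oY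
  have hP : P0 + P1 = LinearMap.id := by
    refine LinearMap.ext fun a => ?_
    change (pr oY a : Y →ₗ[k] Y) + LinearMap.trace k Y a • LinearMap.id = a
    rw [pr_coe]
    abel
  have hsum : T w = T (TensorProduct.map (TensorProduct.map P0 P0) LinearMap.id w) +
      T (TensorProduct.map (TensorProduct.map P1 P1) LinearMap.id w) := by
    have h3 : w = TensorProduct.map (TensorProduct.map (P0 + P1) (P0 + P1))
        LinearMap.id w := by
      rw [hP, TensorProduct.map_id, TensorProduct.map_id, LinearMap.id_apply]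
    conv_lhs => rw [h3]
    have h5 : T (TensorProduct.map (TensorProduct.map P0 P1) LinearMap.id w) =
      T (TensorProduct.map (TensorProduct.map P1 P0) LinearMap.id w) :=
      mixed hw hT P0 P1 LinearMap.id
    rw [TensorProduct.map_add_left, TensorProduct.map_add_right, TensorProduct.map_add_right,
      TensorProduct.map_add_left, TensorProduct.map_add_left, TensorProduct.map_add_left,
      LinearMap.add_apply, LinearMap.add_apply, LinearMap.add_apply, map_add, map_add,
      map_add, h5]
    have h4 := h2 (T (TensorProduct.map (TensorProduct.map P1 P0) LinearMap.id w))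
    linear_combination h4
  have hA : T (TensorProduct.map (TensorProduct.map P0 P0) LinearMap.id w) = 0 := by
    by_contra hne
    have h3 := triv_tens_of_ne (isHom_pr oY σ) (isHom_subtype _ _ (tl_inv σ))
      (isHom_id (hom ρ ρ)) (isHom_id (hom ρ ρ)) hw hT hne
    exact tl_not_triv oY hY ((triv_tens_iff hG _ _).mp h3).1
  have hB : T (TensorProduct.map (TensorProduct.map P1 P1) LinearMap.id w) = 0 := by
    simp only [P1]
    rw [map_tr]
    let S : (X →ₗ[k] X) →ₗ[k] k := T ∘ₗ TensorProduct.mk k _ _
      ((LinearMap.id : Y →ₗ[k] Y) ⊗ₜ (LinearMap.id : Y →ₗ[k] Y))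
    have hS : ∀ c, S c = T (((LinearMap.id : Y →ₗ[k] Y) ⊗ₜ (LinearMap.id : Y →ₗ[k] Y)) ⊗ₜ c) :=
      fun c => rfl
    obtain ⟨b, hb⟩ := exists_repr S
    have hSi : InvFun (hom ρ ρ) S := by
      intro g' c
      rw [hS, hS]
      have h3 := (invFun_tens.mp hT).1 g'
        (((LinearMap.id : Y →ₗ[k] Y) ⊗ₜ (LinearMap.id : Y →ₗ[k] Y)) ⊗ₜ c)
      rw [TensorProduct.map_tmul, TensorProduct.map_tmul, hom_id] at h3
      exact h3
    have hb' : IsHom ρ ρ b := repr_isHom hSi hb
    have hc : IsHom ρ ρ (cl k X Y w) := by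
      refine invVec_hom.mp fun g' => ?_
      have h3 := (invVec_tens.mp hw).1 g'
      have h4 := cl_hom σ ρ g' w
      have h5 : TensorProduct.map (TensorProduct.map (hom σ σ g') (hom σ σ g')) (hom ρ ρ g') w =
        w := h3
      rw [h5] at h4
      exact h4.symm
    have ht : LinearMap.trace k X (cl k X Y w) = 0 := by
      rw [trace_cl]
      simp only [w]
      rw [LinearEquiv.apply_symm_apply, h0]
    rw [← hS, hb, trace_comp_eq_zero hX oX hc ht hb']
  rw [← hTw, hsum, hA, hB, add_zero]

end Main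

end Pool.Agent.AMP
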