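import Mathlib
import Pool.Agent.AMP.Trace

/-! The odd-dimensional indecomposable summand of `N(Y) ⊗ X`. -/

set_option autoImplicit false

namespace Pool.Agent.AMP

open TensorProduct

section

variable {k G A M N : Type} [Field k] [Group G] [AddCommGroup M] [Module k M]
  [AddCommGroup A] [Module k A] [AddCommGroup N] [Module k N]

/-- The first module is a direct summand of the second one, with inclusion `i` and projection
`p`. -/
def IsSum (α : Representation k G A) (ρ : Representation k G M) (i : A →ₗ[k] M)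
    (p : M →ₗ[k] A) : Prop :=
  IsHom α ρ i ∧ IsHom ρ α p ∧ ∀ x, p (i x) = x

theorem IsSum.trans {α : Representation k G A} {ρ : Representation k G M}
    {ν : Representation k G N} {i : A →ₗ[k] M} {p : M →ₗ[k] A} {j : M →ₗ[k] N}
    {q : N →ₗ[k] M} (h : IsSum α ρ i p) (h' : IsSum ρ ν j q) :
    IsSum α ν (j ∘ₗ i) (p ∘ₗ q) := by
  refine ⟨h'.1.comp h.1, h.2.1.comp h'.2.1, fun x => ?_⟩
  rw [LinearMap.comp_apply, LinearMap.comp_apply, h'.2.2, h.2.2]

theorem IsSum.triv {α : Representation k G A} {ρ : Representation k G M} {i : A →ₗ[k] M}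
    {p : M →ₗ[k] A} (h : IsSum α ρ i p) (hT : Triv α) : Triv ρ :=
  Triv.of_maps h.1 h.2.1 h.2.2 hT

theorem IsSum.comp_eq {α : Representation k G A} {ρ : Representation k G M} {i : A →ₗ[k] M}
    {p : M →ₗ[k] A} (h : IsSum α ρ i p) : p ∘ₗ i = LinearMap.id := LinearMap.ext h.2.2

theorem isSum_of_iso {ρ : Representation k G M} {ν : Representation k G N} (e : M ≃ₗ[k] N)
    (he : ∀ g x, e (ρ g x) = ν g (e x)) : IsSum ρ ν e.toLinearMap e.symm.toLinearMap := by
  have h : IsHom ρ ν e.toLinearMap := fun g x => he g x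
  exact ⟨h, h.inv e fun _ => rfl, fun x => e.symm_apply_apply x⟩

theorem isSum_sub {ρ : Representation k G M} {U W : Submodule k M}
    (hU : ∀ g, ∀ x ∈ U, ρ g x ∈ U) (hW : ∀ g, ∀ x ∈ W, ρ g x ∈ W) (hc : IsCompl U W) :
    IsSum (sub ρ U hU) ρ U.subtype (U.projectionOnto W hc) :=
  ⟨isHom_subtype ρ U hU, isHom_proj ρ hU hW hc,
    fun x => Submodule.projectionOnto_apply_left hc x⟩

/-- The trace of the idempotent of a summand. -/
theorem IsSum.trace [FiniteDimensional k M] [FiniteDimensional k A]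
    {α : Representation k G A} {ρ : Representation k G M} {i : A →ₗ[k] M}
    {p : M →ₗ[k] A} (h : IsSum α ρ i p) :
    LinearMap.trace k M (i ∘ₗ p) = Module.finrank k A := by
  rw [LinearMap.trace_comp_comm', h.comp_eq, LinearMap.trace_id]

/-- A module of odd dimension has an indecomposable summand of odd dimension. -/
theorem exists_odd_summand : ∀ (n : ℕ) (M : Type) [AddCommGroup M] [Module k M]
    [FiniteDimensional k M] (ρ : Representation k G M), Module.finrank k M = n → Odd n →
    ∃ (A : Type) (_ : AddCommGroup A) (_ : Module k A) (_ : FiniteDimensional k A)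
      (α : Representation k G A) (i : A →ₗ[k] M) (p : M →ₗ[k] A),
      IsSum α ρ i p ∧ Indec α ∧ Odd (Module.finrank k A) := by
  intro n
  induction n using Nat.strong_induction_on with
  | _ n ih =>
  intro M _ _ _ ρ hn ho
  by_cases hM : Indec ρ
  · exact ⟨M, _, _, inferInstance, ρ, LinearMap.id, LinearMap.id,
      ⟨isHom_id ρ, isHom_id ρ, fun _ => rfl⟩, hM, hn ▸ ho⟩
  · have hM0 : Nontrivial M := by
      have h1 : 0 < Module.finrank k M := by
        rw [hn]
        exact ho.pos
      exact Module.nontrivial_of_finrank_pos h1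
    have hM' : ¬ ∀ U W : Submodule k M, (∀ g, ∀ x ∈ U, ρ g x ∈ U) →
        (∀ g, ∀ x ∈ W, ρ g x ∈ W) → IsCompl U W → U = ⊥ ∨ W = ⊥ := fun h3 => hM ⟨hM0, h3⟩
    push Not at hM'
    obtain ⟨U, W, hU, hW, hc, hU0, hW0⟩ := hM'
    have hsum := Submodule.finrank_add_eq_of_isCompl hc
    rw [hn] at hsum
    have hlt1 := finrank_lt hc hW0
    have hlt2 := finrank_lt hc.symm hU0
    have hcase : ∀ (U W : Submodule k M) (hU : ∀ g, ∀ x ∈ U, ρ g x ∈ U)
        (hW : ∀ g, ∀ x ∈ W, ρ g x ∈ W) (hc : IsCompl U W), Odd (Module.finrank k U) →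
        Module.finrank k U < n →
        ∃ (A : Type) (_ : AddCommGroup A) (_ : Module k A) (_ : FiniteDimensional k A)
          (α : Representation k G A) (i : A →ₗ[k] M) (p : M →ₗ[k] A),
          IsSum α ρ i p ∧ Indec α ∧ Odd (Module.finrank k A) := by
      intro U W hU hW hc hodd hlt
      obtain ⟨A, i1, i2, i3, α, i, p, h1, h2, h3⟩ := ih (Module.finrank k U) hlt U
        (sub ρ U hU) rfl hodd
      exact ⟨A, i1, i2, i3, α, _, _, h1.trans (isSum_sub hU hW hc), h2, h3⟩
    by_cases h1 : Odd (Module.finrank k U)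
    · exact hcase U W hU hW hc h1 (hn ▸ hlt1)
    · have h2 : Odd (Module.finrank k W) := by
        rw [Nat.not_odd_iff_even] at h1
        rw [← hsum, Nat.odd_add] at ho
        by_contra h4
        rw [Nat.not_odd_iff_even] at h4
        exact (Nat.not_odd_iff_even.mpr h1) (ho.mpr h4)
      exact hcase W U hW hU hc.symm h2 (hn ▸ hlt2)

/-- The kernel of the projection to a summand is a submodule. -/
theorem ker_inv {α : Representation k G A} {ρ : Representation k G M} {i : A →ₗ[k] M}
    {p : M →ₗ[k] A} (h : IsSum α ρ i p) : ∀ g, ∀ x ∈ LinearMap.ker p, ρ g x ∈ LinearMap.ker p := by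
  intro g x hx
  rw [LinearMap.mem_ker] at hx ⊢
  rw [h.2.1, hx, map_zero]

/-- The projection to the kernel. -/
def kproj (i : A →ₗ[k] M) (p : M →ₗ[k] A) (h : ∀ x, p (i x) = x) : M →ₗ[k] LinearMap.ker p :=
  LinearMap.codRestrict (LinearMap.ker p) (LinearMap.id - i ∘ₗ p) (fun x => by
    rw [LinearMap.mem_ker, LinearMap.sub_apply, map_sub, LinearMap.id_apply,
      LinearMap.comp_apply, h, sub_self])

theorem kproj_coe (i : A →ₗ[k] M) (p : M →ₗ[k] A) (h : ∀ x, p (i x) = x) (x : M) :
    (kproj i p h x : M) = x - i (p x) := rfl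

theorem isSum_ker {α : Representation k G A} {ρ : Representation k G M} {i : A →ₗ[k] M}
    {p : M →ₗ[k] A} (h : IsSum α ρ i p) :
    IsSum (sub ρ (LinearMap.ker p) (ker_inv h)) ρ (LinearMap.ker p).subtype (kproj i p h.2.2) := by
  refine ⟨isHom_subtype _ _ _, fun g x => Subtype.ext ?_, fun x => Subtype.ext ?_⟩
  · rw [kproj_coe, sub_apply, kproj_coe, h.2.1, h.1, map_sub]
  · have hx : p (x : M) = 0 := x.2
    rw [kproj_coe, Submodule.subtype_apply, hx, map_zero, sub_zero]

/-- Every summand of a module with all endomorphisms of trace zero has even dimension. -/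
theorem Neg.even [CharP k 2] [FiniteDimensional k M] [FiniteDimensional k A]
    {α : Representation k G A} {ρ : Representation k G M} (hN : Neg ρ) {i : A →ₗ[k] M}
    {p : M →ₗ[k] A} (h : IsSum α ρ i p) : Even (Module.finrank k A) := by
  have h1 := hN _ (h.1.comp h.2.1)
  rw [h.trace] at h1
  exact (even_iff_two_dvd).mpr ((CharP.cast_eq_zero_iff k 2 _).mp h1)

/-- A summand with all endomorphisms of trace zero can be removed in a tensor product. -/
theorem triv_reduce [FiniteDimensional k N] {B : Type} [AddCommGroup B] [Module k B]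
    {β : Representation k G B}
    {α : Representation k G A} {ρ : Representation k G M} {ν : Representation k G N}
    {i : A →ₗ[k] M} {p : M →ₗ[k] A} {j : N →ₗ[k] M} {q : M →ₗ[k] N}
    (h : IsSum α ρ i p) (h' : IsSum ν ρ j q) (hs : i ∘ₗ p + j ∘ₗ q = LinearMap.id)
    (hN : Neg ν) (hT : Triv (tp β ρ)) : Triv (tp β α) := by
  obtain ⟨w, T, hw, hT, h1⟩ := hT
  have hsum : T w = T (TensorProduct.map LinearMap.id (i ∘ₗ p) w) +
      T (TensorProduct.map LinearMap.id (j ∘ₗ q) w) := by
    have h3 : w = TensorProduct.map LinearMap.id (i ∘ₗ p + j ∘ₗ q) w := by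
      rw [hs, TensorProduct.map_id, LinearMap.id_apply]
    conv_lhs => rw [h3]
    rw [TensorProduct.map_add_right, LinearMap.add_apply, map_add]
  have h4 : T (TensorProduct.map LinearMap.id (j ∘ₗ q) w) = 0 := by
    have h5 := hN.not_triv (InvVec.map ((isHom_id β).tmap h'.2.1) hw)
      (InvFun.comp ((isHom_id β).tmap h'.1) hT)
    rw [LinearMap.comp_apply, map_map', LinearMap.comp_id] at h5
    exact h5
  refine triv_of_ne (InvVec.map ((isHom_id β).tmap h.2.1) hw)
      (InvFun.comp ((isHom_id β).tmap h.1) hT) ?_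
  rw [LinearMap.comp_apply, map_map', LinearMap.comp_id]
  rw [h1, h4, add_zero] at hsum
  rw [← hsum]
  exact one_ne_zero

end

section Main

variable {k G X Y A : Type} [Field k] [IsAlgClosed k] [CharP k 2] [Group G] [Finite G]
  [AddCommGroup X] [Module k X] [FiniteDimensional k X]
  [AddCommGroup Y] [Module k Y] [FiniteDimensional k Y]
  [AddCommGroup A] [Module k A] [FiniteDimensional k A]

omit [IsAlgClosed k] [CharP k 2] in
theorem finrank_TT : Module.finrank k ((Y ⊗[k] Y) ⊗[k] X) =
    (Module.finrank k Y * Module.finrank k Y) * Module.finrank k X := by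
  rw [Module.finrank_tensorProduct, Module.finrank_tensorProduct]

theorem odd_TT (oY : Odd (Module.finrank k Y)) (oX : Odd (Module.finrank k X)) :
    Odd (Module.finrank k ((Y ⊗[k] Y) ⊗[k] X)) := by
  rw [finrank_TT]
  exact (oY.mul oY).mul oX

end Main

/-- Products with an endomorphism of trace zero have trace zero. -/
def TF {k G M : Type} [Field k] [Group G] [AddCommGroup M] [Module k M]
    (ρ : Representation k G M) : Prop :=
  ∀ f g : M →ₗ[k] M, IsHom ρ ρ f → IsHom ρ ρ g → LinearMap.trace k M f = 0 →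
    LinearMap.trace k M (g ∘ₗ f) = 0

section TFsec

variable {k G A M N : Type} [Field k] [CharP k 2] [Group G] [AddCommGroup M] [Module k M]
  [AddCommGroup A] [Module k A] [AddCommGroup N] [Module k N]
  [FiniteDimensional k M] [FiniteDimensional k A] [FiniteDimensional k N]

/-- The complement of an odd-dimensional summand has only endomorphisms of trace zero. -/
theorem neg_compl {ρ : Representation k G M} (hM : TF ρ) (oM : Odd (Module.finrank k M))
    {α : Representation k G A} {i : A →ₗ[k] M} {p : M →ₗ[k] A} (h : IsSum α ρ i p)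
    (oA : Odd (Module.finrank k A)) {ν : Representation k G N} {j : N →ₗ[k] M}
    {q : M →ₗ[k] N} (h' : IsSum ν ρ j q) (hpj : p ∘ₗ j = 0) : Neg ν := by
  intro f hf
  have hf' : IsHom ρ ρ (j ∘ₗ f ∘ₗ q) := h'.1.comp (hf.comp h'.2.1)
  have htr : LinearMap.trace k _ (j ∘ₗ f ∘ₗ q) = LinearMap.trace k N f := by
    rw [LinearMap.trace_comp_comm', LinearMap.comp_assoc, h'.comp_eq, LinearMap.comp_id]
  have hid : LinearMap.trace k M LinearMap.id = 1 := trace_id_odd oM
  have h0 : LinearMap.trace k _ (j ∘ₗ f ∘ₗ q - LinearMap.trace k N f • LinearMap.id) = 0 := by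
    rw [map_sub, map_smul, htr, hid, smul_eq_mul, mul_one, sub_self]
  have h1 := hM _ _ (hf'.sub ((isHom_id _).smul _)) (h.1.comp h.2.1) h0
  have h2 : (i ∘ₗ p) ∘ₗ (j ∘ₗ f ∘ₗ q) = 0 := by
    rw [LinearMap.comp_assoc, ← LinearMap.comp_assoc (f ∘ₗ q) j p, hpj, LinearMap.zero_comp,
      LinearMap.comp_zero]
  rw [LinearMap.comp_sub, h2, LinearMap.comp_smul, LinearMap.comp_id, map_sub, map_smul,
    h.trace, cast_odd oA, map_zero, zero_sub, smul_eq_mul, mul_one, neg_eq_zero] at h1
  exact h1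

/-- Two odd-dimensional indecomposable summands are isomorphic. -/
theorem iso_summands {ρ : Representation k G M} (hM : TF ρ) (oM : Odd (Module.finrank k M))
    {α : Representation k G A} {i : A →ₗ[k] M} {p : M →ₗ[k] A} (h : IsSum α ρ i p)
    (hA : Indec α) (oA : Odd (Module.finrank k A)) {β : Representation k G N} {j : N →ₗ[k] M}
    {q : M →ₗ[k] N} (h' : IsSum β ρ j q) (hB : Indec β) (oB : Odd (Module.finrank k N)) :
    Iso α β := by
  have hid : LinearMap.trace k M LinearMap.id = 1 := trace_id_odd oM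
  have hi := h.1.comp h.2.1
  have hj := h'.1.comp h'.2.1
  have h0 : LinearMap.trace k _ (i ∘ₗ p - LinearMap.id) = 0 := by
    rw [map_sub, hid, h.trace, cast_odd oA, sub_self]
  have h1 := hM _ _ (hi.sub (isHom_id _)) hj h0
  rw [LinearMap.comp_sub, LinearMap.comp_id, map_sub, h'.trace, cast_odd oB, sub_eq_zero] at h1
  have ha : IsHom α β (q ∘ₗ i) := h'.2.1.comp h.1
  have hb : IsHom β α (p ∘ₗ j) := h.2.1.comp h'.1
  have hab : LinearMap.trace k N ((q ∘ₗ i) ∘ₗ (p ∘ₗ j)) = 1 := by
    rw [← h1]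
    have e1 : (q ∘ₗ i) ∘ₗ (p ∘ₗ j) = q ∘ₗ ((i ∘ₗ p) ∘ₗ j) := rfl
    rw [e1, LinearMap.trace_comp_comm', LinearMap.comp_assoc, LinearMap.trace_comp_comm']
  have h2 : Function.Bijective ((q ∘ₗ i) ∘ₗ (p ∘ₗ j)) := bijective_of_trace hB (ha.comp hb) (by
    rw [hab]
    exact one_ne_zero)
  have h3 : Function.Bijective ((p ∘ₗ j) ∘ₗ (q ∘ₗ i)) := bijective_of_trace hA (hb.comp ha) (by
    rw [LinearMap.trace_comp_comm', hab]
    exact one_ne_zero)
  have hinj : Function.Injective (q ∘ₗ i) := by
    intro x y hxy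
    apply h3.1
    exact congrArg (p ∘ₗ j) hxy
  have hsurj : Function.Surjective (q ∘ₗ i) := by
    intro y
    obtain ⟨x, hx⟩ := h2.2 y
    exact ⟨(p ∘ₗ j) x, hx⟩
  exact ⟨LinearEquiv.ofBijective (q ∘ₗ i) ⟨hinj, hsurj⟩, fun g x => ha g x⟩

/-- An odd-dimensional summand carries all trivial summands of tensor products. -/
theorem triv_reduce_odd {ρ : Representation k G M} (hM : TF ρ) (oM : Odd (Module.finrank k M))
    {α : Representation k G A} {i : A →ₗ[k] M} {p : M →ₗ[k] A} (h : IsSum α ρ i p)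
    (oA : Odd (Module.finrank k A)) {B : Type} [AddCommGroup B] [Module k B]
    {β : Representation k G B} (hT : Triv (tp β ρ)) : Triv (tp β α) := by
  refine triv_reduce h (isSum_ker h) ?_ (neg_compl hM oM h oA (isSum_ker h) ?_) hT
  · refine LinearMap.ext fun x => ?_
    rw [LinearMap.add_apply, LinearMap.comp_apply, LinearMap.comp_apply, Submodule.subtype_apply,
      kproj_coe, LinearMap.id_apply]
    abel
  · exact LinearMap.ext fun x => x.2

end TFsec

section Main2

variable {k G X Y A : Type} [Field k] [IsAlgClosed k] [CharP k 2] [Group G] [Finite G]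
  [AddCommGroup X] [Module k X] [FiniteDimensional k X]
  [AddCommGroup Y] [Module k Y] [FiniteDimensional k Y]
  [AddCommGroup A] [Module k A] [FiniteDimensional k A]

theorem tf_tens (hG : IsPGroup 2 G) {σ : Representation k G Y}
    {ρ : Representation k G X} (hY : Indec σ) (hX : Indec ρ) (oY : Odd (Module.finrank k Y))
    (oX : Odd (Module.finrank k X)) : TF (tens σ ρ) := fun _ _ hf hg h0 =>
  trace_formula hG hY hX oY oX hf hg h0

/-- The modules `X` and `Y` are determined by the odd-dimensional summand. -/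
theorem iso_of_summands (hG : IsPGroup 2 G) {X' Y' : Type} [AddCommGroup X'] [Module k X']
    [FiniteDimensional k X'] [AddCommGroup Y'] [Module k Y'] [FiniteDimensional k Y']
    {σ : Representation k G Y}
    {ρ : Representation k G X} {σ' : Representation k G Y'} {ρ' : Representation k G X'}
    (hY : Indec σ) (hX : Indec ρ) (hY' : Indec σ') (hX' : Indec ρ')
    {α : Representation k (G × C2) A}
    {i : A →ₗ[k] (Y ⊗[k] Y) ⊗[k] X} {p : (Y ⊗[k] Y) ⊗[k] X →ₗ[k] A}
    (h : IsSum α (tens σ ρ) i p) (oA : Odd (Module.finrank k A))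
    {B : Type} [AddCommGroup B] [Module k B] [FiniteDimensional k B]
    {β : Representation k (G × C2) B} {j : B →ₗ[k] (Y' ⊗[k] Y') ⊗[k] X'}
    {q : (Y' ⊗[k] Y') ⊗[k] X' →ₗ[k] B} (h' : IsSum β (tens σ' ρ') j q)
    (he : Iso α β) : Iso σ σ' ∧ Iso ρ ρ' := by
  obtain ⟨e, he⟩ := he
  have hs := isSum_of_iso e he
  have ha : IsHom (tens σ ρ) (tens σ' ρ') (j ∘ₗ e.toLinearMap ∘ₗ p) :=
    h'.1.comp (hs.1.comp h.2.1)
  have hb : IsHom (tens σ' ρ') (tens σ ρ) (i ∘ₗ e.symm.toLinearMap ∘ₗ q) :=
    h.1.comp (hs.2.1.comp h'.2.1)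
  have hab : (i ∘ₗ e.symm.toLinearMap ∘ₗ q) ∘ₗ (j ∘ₗ e.toLinearMap ∘ₗ p) = i ∘ₗ p := by
    refine LinearMap.ext fun x => ?_
    simp only [LinearMap.comp_apply, LinearEquiv.coe_coe]
    rw [h'.2.2, e.symm_apply_apply]
  have h1 := triv_hom_of_maps hG ha hb (by
    rw [hab, h.trace, cast_odd oA]
    exact one_ne_zero)
  exact ⟨iso_of_triv_hom hY hY' h1.1, iso_of_triv_hom hX hX' h1.2⟩

end Main2

end Pool.Agent.AMP
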