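import Mathlib
import Pool.Agent.AMP.Odd

/-! Tensor powers. -/

set_option autoImplicit false

namespace Pool.Agent.AMP

open TensorProduct PiTensorProduct

section

variable {k G A M N : Type} [Field k] [Group G] [AddCommGroup M] [Module k M]
  [AddCommGroup A] [Module k A] [AddCommGroup N] [Module k N]

theorem tpow_apply (ι : Type) (ρ : Representation k G M) (g : G) (x : ⨂[k] _ : ι, M) :
    tpow ι ρ g x = PiTensorProduct.map (fun _ => ρ g) x := rfl

theorem isHom_tpow (ι : Type) {ρ : Representation k G M} {ν : Representation k G N}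
    {f : M →ₗ[k] N} (hf : IsHom ρ ν f) :
    IsHom (tpow ι ρ) (tpow ι ν) (PiTensorProduct.map fun _ => f) := by
  intro g x
  rw [tpow_apply, tpow_apply, ← LinearMap.comp_apply, ← LinearMap.comp_apply,
    ← PiTensorProduct.map_comp, ← PiTensorProduct.map_comp]
  congr 2
  funext _
  exact LinearMap.ext fun y => hf g y

theorem isSum_tpow (ι : Type) {α : Representation k G A} {ρ : Representation k G M}
    {i : A →ₗ[k] M} {p : M →ₗ[k] A} (h : IsSum α ρ i p) :
    IsSum (tpow ι α) (tpow ι ρ) (PiTensorProduct.map fun _ => i)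
      (PiTensorProduct.map fun _ => p) := by
  refine ⟨isHom_tpow ι h.1, isHom_tpow ι h.2.1, fun x => ?_⟩
  rw [← LinearMap.comp_apply, ← PiTensorProduct.map_comp]
  have : (fun _ : ι => p ∘ₗ i) = fun _ => LinearMap.id := by
    funext _
    exact h.comp_eq
  rw [this, PiTensorProduct.map_id, LinearMap.id_apply]

theorem iso_tpow (ι : Type) {ρ : Representation k G M} {ν : Representation k G N}
    (h : Iso ρ ν) : Iso (tpow ι ρ) (tpow ι ν) := by
  obtain ⟨e, he⟩ := h
  refine ⟨PiTensorProduct.congr fun _ => e, fun g x => ?_⟩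
  exact isHom_tpow ι (f := e.toLinearMap) (fun g x => he g x) g x

/-- The tensor power with one more factor. -/
theorem tpow_succ (m : ℕ) (ρ : Representation k G M) :
    Iso (tp (tpow (Fin m) ρ) ρ) (tpow (Fin (m + 1)) ρ) := by
  let e : (⨂[k] _ : Fin m, M) ⊗[k] M ≃ₗ[k] ⨂[k] _ : Fin (m + 1), M :=
    ((TensorProduct.congr (LinearEquiv.refl k _)
      (subsingletonEquiv (R := k) (s := fun _ : Fin 1 => M) 0).symm).trans
        (tmulEquiv k M)).trans (reindex k (fun _ => M) finSumFinEquiv)
  have he : ∀ (a : Fin m → M) (x : M), e (tprod k a ⊗ₜ x) =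
      tprod k fun i => Sum.elim a (fun _ => x) (finSumFinEquiv.symm i) := by
    intro a x
    simp only [e, LinearEquiv.trans_apply, TensorProduct.congr_tmul, LinearEquiv.refl_apply,
      subsingletonEquiv_symm_apply', tmulEquiv_apply, reindex_tprod]
  refine ⟨e, fun g x => ?_⟩
  rw [tp_apply, tpow_apply]
  induction x using TensorProduct.induction_on with
  | zero => simp
  | tmul y x =>
    induction y using PiTensorProduct.induction_on with
    | smul_tprod c a =>
      rw [← TensorProduct.smul_tmul', map_smul, map_smul, map_smul, map_smul,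
        TensorProduct.map_tmul, he, tpow_apply, PiTensorProduct.map_tprod, he,
        PiTensorProduct.map_tprod]
      congr 2
      funext i
      rcases finSumFinEquiv.symm i with j | j <;> rfl
    | add x y hx hy =>
      rw [TensorProduct.add_tmul, map_add, map_add, hx, hy, map_add, map_add]
  | add x y hx hy => rw [map_add, map_add, hx, hy, map_add, map_add]

theorem tpow_step {M' : Type} [AddCommGroup M'] [Module k M'] (m : ℕ)
    {ρ : Representation k G M} {τ : Representation k G N} {τ' : Representation k G M'}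
    (h : Iso (tpow (Fin m) ρ) τ) (h' : Iso (tp τ ρ) τ') : Iso (tpow (Fin (m + 1)) ρ) τ' :=
  (tpow_succ m ρ).symm.trans ((h.tmap (Iso.refl ρ)).trans h')

theorem tpow_zero_apply (ρ : Representation k G M) (g : G) (x : ⨂[k] _ : Fin 0, M) :
    tpow (Fin 0) ρ g x = x := by
  rw [tpow_apply]
  induction x using PiTensorProduct.induction_on with
  | smul_tprod c a =>
    rw [map_smul, PiTensorProduct.map_tprod]
    congr 2
    funext i
    exact i.elim0
  | add x y hx hy => rw [map_add, hx, hy]

theorem tpow_zero (ρ : Representation k G M) (ν : Representation k G N) :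
    Iso (tpow (Fin 0) ρ) (tpow (Fin 0) ν) := by
  refine ⟨(isEmptyEquiv (R := k) (s := fun _ : Fin 0 => M) (Fin 0)).trans
    (isEmptyEquiv (R := k) (s := fun _ : Fin 0 => N) (Fin 0)).symm, fun g x => ?_⟩
  rw [tpow_zero_apply, tpow_zero_apply]

/-- The trivial module `k`. -/
noncomputable def one (k G : Type) [Field k] [Group G] : Rep' k G k := 1

theorem Iso.one_tprod (ρ : Representation k G M) : Iso (tp (one k G) ρ) ρ := by
  refine ⟨TensorProduct.lid k M, fun g x => ?_⟩
  rw [tp_apply]
  induction x using TensorProduct.induction_on with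
  | zero => simp
  | tmul c x =>
    rw [TensorProduct.map_tmul, TensorProduct.lid_tmul, TensorProduct.lid_tmul, map_smul]
    rfl
  | add x y hx hy => rw [map_add, map_add, hx, hy, map_add, map_add]

theorem pow_reduce_aux [CharP k 2] [FiniteDimensional k M] [FiniteDimensional k A]
    {ρ : Representation k G M} (hM : TF ρ) (oM : Odd (Module.finrank k M))
    {α : Representation k G A} {i : A →ₗ[k] M} {p : M →ₗ[k] A} (h : IsSum α ρ i p)
    (oA : Odd (Module.finrank k A)) : ∀ (m : ℕ) (B : Type) [AddCommGroup B] [Module k B]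
    (β : Representation k G B), Triv (tp β (tpow (Fin m) ρ)) →
      Triv (tp β (tpow (Fin m) α)) := by
  intro m
  induction m with
  | zero =>
    intro B _ _ β hT
    exact ((Iso.refl β).tmap (tpow_zero ρ α)).triv hT
  | succ m ih =>
    intro B _ _ β hT
    have h1 : Triv (tp (tp β (tpow (Fin m) ρ)) ρ) :=
      (Iso.assoc _ _ _).symm.triv (((Iso.refl β).tmap (tpow_succ m ρ).symm).triv hT)
    have h2 : Triv (tp (tp β (tpow (Fin m) ρ)) α) := triv_reduce_odd hM oM h oA h1
    have h3 : Triv (tp (tp α β) (tpow (Fin m) ρ)) :=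
      (Iso.assoc _ _ _).symm.triv ((Iso.comm _ _).triv h2)
    have h4 := ih (Tn k A B) (tp α β) h3
    have h5 : Triv (tp (tp β (tpow (Fin m) α)) α) :=
      (Iso.comm _ _).triv ((Iso.assoc _ _ _).triv h4)
    exact ((Iso.refl β).tmap (tpow_succ m α)).triv ((Iso.assoc _ _ _).triv h5)

/-- Trivial summands of tensor powers only depend on the odd-dimensional summand. -/
theorem pow_reduce [CharP k 2] [FiniteDimensional k M] [FiniteDimensional k A]
    {ρ : Representation k G M} (hM : TF ρ) (oM : Odd (Module.finrank k M))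
    {α : Representation k G A} {i : A →ₗ[k] M} {p : M →ₗ[k] A} (h : IsSum α ρ i p)
    (oA : Odd (Module.finrank k A)) (m : ℕ) :
    Triv (tpow (Fin m) α) ↔ Triv (tpow (Fin m) ρ) := by
  refine ⟨(isSum_tpow (Fin m) h).triv, fun hT => ?_⟩
  exact (Iso.one_tprod _).triv (pow_reduce_aux hM oM h oA m k (one k G)
    ((Iso.one_tprod _).symm.triv hT))

end

section TensPow

variable {k G X Y X' Y' : Type} [Field k] [Group G] [AddCommGroup X] [Module k X]
  [AddCommGroup Y] [Module k Y] [AddCommGroup X'] [Module k X'] [AddCommGroup Y'] [Module k Y']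

theorem iso_tens {σ : Representation k G Y} {σ' : Representation k G Y'}
    {ρ : Representation k G X} {ρ' : Representation k G X'} (h : Iso σ σ') (h' : Iso ρ ρ') :
    Iso (tens σ ρ) (tens σ' ρ') := by
  obtain ⟨e, he⟩ := h
  obtain ⟨e', he'⟩ := h'
  refine ⟨TensorProduct.congr (TensorProduct.congr e e) e', fun g x => ?_⟩
  exact isHom_tens (f := e.toLinearMap) (h := e'.toLinearMap) (fun g x => he g x)
    (fun g x => he' g x) g x

/-- The shuffle of the factors. -/
theorem tens_tprod (σ : Representation k G Y) (ρ : Representation k G X)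
    (σ' : Representation k G Y') (ρ' : Representation k G X') :
    Iso (tp (tens σ ρ) (tens σ' ρ')) (tens (tp σ σ') (tp ρ ρ')) := by
  let e : (((Y ⊗[k] Y) ⊗[k] X) ⊗[k] ((Y' ⊗[k] Y') ⊗[k] X')) ≃ₗ[k]
      (((Y ⊗[k] Y') ⊗[k] (Y ⊗[k] Y')) ⊗[k] (X ⊗[k] X')) :=
    (TensorProduct.tensorTensorTensorComm k (Y ⊗[k] Y) X (Y' ⊗[k] Y') X').trans
      (TensorProduct.congr (TensorProduct.tensorTensorTensorComm k Y Y Y' Y')
        (LinearEquiv.refl k _))
  have he : ∀ a b x a' b' x', e (((a ⊗ₜ b) ⊗ₜ x) ⊗ₜ ((a' ⊗ₜ b') ⊗ₜ x')) =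
      ((a ⊗ₜ a') ⊗ₜ (b ⊗ₜ b')) ⊗ₜ (x ⊗ₜ x') := fun _ _ _ _ _ _ => rfl
  have hext : ∀ (F H : (((Y ⊗[k] Y) ⊗[k] X) ⊗[k] ((Y' ⊗[k] Y') ⊗[k] X')) →ₗ[k]
      (((Y ⊗[k] Y') ⊗[k] (Y ⊗[k] Y')) ⊗[k] (X ⊗[k] X'))),
      (∀ a b x a' b' x', F (((a ⊗ₜ b) ⊗ₜ x) ⊗ₜ ((a' ⊗ₜ b') ⊗ₜ x')) =
        H (((a ⊗ₜ b) ⊗ₜ x) ⊗ₜ ((a' ⊗ₜ b') ⊗ₜ x'))) → F = H := by
    intro F H hFH
    apply TensorProduct.ext
    apply TensorProduct.ext_threefold
    intro a b x
    apply TensorProduct.ext_threefold
    intro a' b' x'
    exact hFH a b x a' b' x'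
  have h1 : ∀ g z, e (tp (tens σ ρ) (tens σ' ρ') (g, 1) z) =
      tens (tp σ σ') (tp ρ ρ') (g, 1) (e z) := by
    intro g z
    have h2 : e.toLinearMap ∘ₗ tp (tens σ ρ) (tens σ' ρ') (g, 1) =
        (tens (tp σ σ') (tp ρ ρ') (g, 1)) ∘ₗ e.toLinearMap := by
      apply hext
      intro a b x a' b' x'
      rw [LinearMap.comp_apply, LinearMap.comp_apply, LinearEquiv.coe_coe, he, tp_apply,
        TensorProduct.map_tmul, tens_one_right, tens_one_right, tens_one_right]
      simp only [TensorProduct.map_tmul, he, tp_apply]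
    exact LinearMap.congr_fun h2 z
  have h3 : ∀ s, s ≠ 1 → ∀ z, e (tp (tens σ ρ) (tens σ' ρ') (1, s) z) =
      tens (tp σ σ') (tp ρ ρ') (1, s) (e z) := by
    intro s hs z
    have h2 : e.toLinearMap ∘ₗ tp (tens σ ρ) (tens σ' ρ') (1, s) =
        (tens (tp σ σ') (tp ρ ρ') (1, s)) ∘ₗ e.toLinearMap := by
      apply hext
      intro a b x a' b' x'
      rw [LinearMap.comp_apply, LinearMap.comp_apply, LinearEquiv.coe_coe, he, tp_apply,
        TensorProduct.map_tmul, tens_one_left σ ρ hs, tens_one_left σ' ρ' hs,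
        tens_one_left _ _ hs]
      simp only [TensorProduct.map_tmul, LinearEquiv.coe_coe, TensorProduct.comm_tmul,
        LinearMap.id_apply, he]
    exact LinearMap.congr_fun h2 z
  refine ⟨e, ?_⟩
  rintro ⟨g, s⟩ z
  by_cases hs : s = 1
  · subst hs
    exact h1 g z
  · have e1 : ((g, s) : G × C2) = (g, 1) * (1, s) := by simp
    rw [e1, map_mul, map_mul, Module.End.mul_apply, Module.End.mul_apply, h1, h3 s hs]

end TensPow

section Zero

variable {k G X Y : Type} [Field k] [CharP k 2] [Group G] [AddCommGroup X] [Module k X]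
  [AddCommGroup Y] [Module k Y]

theorem isPGroup_prod (hG : IsPGroup 2 G) : IsPGroup 2 (G × C2) := by
  rintro ⟨g, s⟩
  obtain ⟨n, hn⟩ := hG g
  refine ⟨n + 1, Prod.ext ?_ ?_⟩
  · rw [Prod.pow_fst, pow_succ, pow_mul, hn, one_pow, Prod.fst_one]
  · rw [Prod.pow_snd, pow_succ', pow_mul, Prod.snd_one]
    have h : s ^ 2 = 1 := by
      revert s
      decide
    rw [h, one_pow]

theorem iso_of_finrank_one (hG : IsPGroup 2 G) {ρ : Representation k G X}
    {σ : Representation k G Y} (h : Module.finrank k X = 1) (h' : Module.finrank k Y = 1) :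
    Iso ρ σ := by
  have : Module.Finite k X := Module.finite_of_finrank_pos (by omega)
  have : Module.Finite k Y := Module.finite_of_finrank_pos (by omega)
  refine ⟨LinearEquiv.ofFinrankEq X Y (h.trans h'.symm), fun g x => ?_⟩
  rw [trivial_of_finrank_one hG ρ h, trivial_of_finrank_one hG σ h']

theorem finrank_tpow_zero (M : Type) [AddCommGroup M] [Module k M] :
    Module.finrank k (⨂[k] _ : Fin 0, M) = 1 := by
  rw [(isEmptyEquiv (R := k) (s := fun _ : Fin 0 => M) (Fin 0)).finrank_eq,
    Module.finrank_self]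

/-- The tensor powers of `N(Y) ⊗ X`. -/
theorem tpow_tens (hG : IsPGroup 2 G) (σ : Representation k G Y) (ρ : Representation k G X)
    (m : ℕ) : Iso (tpow (Fin m) (tens σ ρ)) (tens (tpow (Fin m) σ) (tpow (Fin m) ρ)) := by
  induction m with
  | zero =>
    refine iso_of_finrank_one (isPGroup_prod hG) (finrank_tpow_zero _) ?_
    rw [Module.finrank_tensorProduct, Module.finrank_tensorProduct, finrank_tpow_zero,
      finrank_tpow_zero]
  | succ m ih =>
    exact tpow_step m ih ((tens_tprod _ _ _ _).trans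
      (iso_tens (tpow_succ m σ) (tpow_succ m ρ)))

end Zero

end Pool.Agent.AMP
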