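import Mathlib
import Pool.Agent.AMP.Pow

/-! Tensor powers with permutations of the factors. -/

set_option autoImplicit false

namespace Pool.Agent.AMP

open TensorProduct PiTensorProduct

section

variable {k G M ι ι' : Type} [Field k] [Group G] [AddCommGroup M] [Module k M]

/-- The action of `G × Perm ι` on the tensor power: `G` acts diagonally, permutations permute the
factors. -/
noncomputable def sym (ι : Type) (ρ : Representation k G M) :
    Rep' k (G × Equiv.Perm ι) (Pw k ι M) where
  toFun a := PiTensorProduct.map (R := k) (s := fun _ : ι => M) (t := fun _ : ι => M)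
    (fun _ => ρ a.1) ∘ₗ (reindex k (fun _ => M) a.2).toLinearMap
  map_one' := by
    refine PiTensorProduct.ext (MultilinearMap.ext fun v => ?_)
    simp only [LinearMap.compMultilinearMap_apply, LinearMap.comp_apply, LinearEquiv.coe_coe,
      reindex_tprod, PiTensorProduct.map_tprod, Module.End.one_apply, Prod.fst_one,
      Prod.snd_one, map_one]
    rfl
  map_mul' a b := by
    refine PiTensorProduct.ext (MultilinearMap.ext fun v => ?_)
    simp only [LinearMap.compMultilinearMap_apply, LinearMap.comp_apply, LinearEquiv.coe_coe,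
      reindex_tprod, PiTensorProduct.map_tprod, Module.End.mul_apply, Prod.fst_mul,
      Prod.snd_mul, map_mul]
    rfl

theorem sym_tprod (ρ : Representation k G M) (g : G) (c : Equiv.Perm ι) (v : ι → M) :
    sym ι ρ (g, c) (tprod k v) = tprod k fun i => ρ g (v (c⁻¹ i)) := by
  change PiTensorProduct.map (fun _ => ρ g) (reindex k (fun _ => M) c (tprod k v)) = _
  rw [reindex_tprod, PiTensorProduct.map_tprod]
  rfl

/-- The action of `G × P` for a group `P` of permutations of the factors. -/
noncomputable def symP (ι : Type) (P : Subgroup (Equiv.Perm ι)) (ρ : Representation k G M) :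
    Rep' k (G × P) (Pw k ι M) :=
  (sym ι ρ).comp (MonoidHom.prodMap (MonoidHom.id G) P.subtype)

theorem tpow_congr (e : ι ≃ ι') (ρ : Representation k G M) :
    Iso (tpow ι ρ) (tpow ι' ρ) := by
  refine ⟨reindex k (fun _ => M) e, fun g x => ?_⟩
  rw [tpow_apply, tpow_apply]
  exact (PiTensorProduct.map_reindex (fun _ => ρ g) e x).symm

/-- The elements moved up by `c`. -/
abbrev Up {m : ℕ} (c : Equiv.Perm (Fin m)) : Type := {i : Fin m // i < c i}

/-- The fixed points of `c`. -/
abbrev Fx {m : ℕ} (c : Equiv.Perm (Fin m)) : Type := {i : Fin m // c i = i}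

variable {m : ℕ} (c : Equiv.Perm (Fin m)) (hc : ∀ i, c (c i) = i)

/-- The numbering of the factors. -/
def theta : (Up c ⊕ Up c) ⊕ Fx c → Fin m :=
  Sum.elim (Sum.elim (fun a => a.1) (fun a => c a.1)) (fun a => a.1)

include hc in
theorem theta_bijective : Function.Bijective (theta c) := by
  constructor
  · rintro ((⟨a, ha⟩ | ⟨a, ha⟩) | ⟨a, ha⟩) ((⟨b, hb⟩ | ⟨b, hb⟩) | ⟨b, hb⟩) h <;>
      simp only [theta, Sum.elim_inl, Sum.elim_inr] at h
    · subst h
      rfl
    · subst h
      rw [hc] at ha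
      exact absurd (ha.trans hb) (lt_irrefl _)
    · subst h
      rw [hb] at ha
      exact absurd ha (lt_irrefl _)
    · subst h
      rw [hc] at hb
      exact absurd (ha.trans hb) (lt_irrefl _)
    · have : a = b := c.injective h
      subst this
      rfl
    · subst h
      rw [hc] at hb
      rw [← hb] at ha
      exact absurd ha (lt_irrefl _)
    · subst h
      rw [ha] at hb
      exact absurd hb (lt_irrefl _)
    · subst h
      rw [hc] at ha
      rw [← ha] at hb
      exact absurd hb (lt_irrefl _)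
    · subst h
      rfl
  · intro i
    rcases lt_trichotomy i (c i) with h | h | h
    · exact ⟨Sum.inl (Sum.inl ⟨i, h⟩), rfl⟩
    · exact ⟨Sum.inr ⟨i, h.symm⟩, rfl⟩
    · refine ⟨Sum.inl (Sum.inr ⟨c i, ?_⟩), ?_⟩
      · rw [hc]
        exact h
      · exact hc i

/-- The numbering of the factors. -/
noncomputable def thetaE : (Up c ⊕ Up c) ⊕ Fx c ≃ Fin m :=
  Equiv.ofBijective (theta c) (theta_bijective c hc)

/-- The exchange of the two halves. -/
def flip' {α β : Type} : (α ⊕ α) ⊕ β → (α ⊕ α) ⊕ β :=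
  Sum.elim (Sum.elim (fun a => Sum.inl (Sum.inr a)) (fun a => Sum.inl (Sum.inl a))) Sum.inr

include hc in
theorem theta_flip (x : (Up c ⊕ Up c) ⊕ Fx c) : theta c (flip' x) = c (theta c x) := by
  rcases x with (⟨a, ha⟩ | ⟨a, ha⟩) | ⟨a, ha⟩
  · rfl
  · exact (hc a).symm
  · exact ha.symm

/-- The identification of the tensor powers. -/
noncomputable def eE (k M : Type) [Field k] [AddCommGroup M] [Module k M] :
    TT k (Pw k (Up c) M) (Pw k (Fx c) M) ≃ₗ[k] Pw k (Fin m) M :=
  ((TensorProduct.congr (tmulEquiv k M) (LinearEquiv.refl k _)).trans (tmulEquiv k M)).trans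
    (reindex k (fun _ => M) (thetaE c hc))

theorem eE_tprod (a b : Up c → M) (d : Fx c → M) :
    eE c hc k M ((tprod k a ⊗ₜ tprod k b) ⊗ₜ tprod k d) =
      tprod k fun i => Sum.elim (Sum.elim a b) d ((thetaE c hc).symm i) := by
  simp only [eE, LinearEquiv.trans_apply, TensorProduct.congr_tmul, LinearEquiv.refl_apply,
    tmulEquiv_apply, reindex_tprod]

theorem ext3 {α β N : Type} [AddCommGroup N] [Module k N]
    {F H : TT k (Pw k α M) (Pw k β M) →ₗ[k] N}
    (h : ∀ (a b : α → M) (d : β → M), F ((tprod k a ⊗ₜ tprod k b) ⊗ₜ tprod k d) =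
      H ((tprod k a ⊗ₜ tprod k b) ⊗ₜ tprod k d)) : F = H := by
  apply TensorProduct.ext_threefold
  intro x y z
  induction x using PiTensorProduct.induction_on with
  | smul_tprod r a =>
    induction y using PiTensorProduct.induction_on with
    | smul_tprod s b =>
      induction z using PiTensorProduct.induction_on with
      | smul_tprod t d =>
        simp only [TensorProduct.tmul_smul, ← TensorProduct.smul_tmul', map_smul, h]
      | add x y hx hy => rw [TensorProduct.tmul_add, map_add, map_add, hx, hy]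
    | add x y hx hy =>
      rw [TensorProduct.tmul_add, TensorProduct.add_tmul, map_add, map_add, hx, hy]
  | add x y hx hy =>
    rw [TensorProduct.add_tmul, TensorProduct.add_tmul, map_add, map_add, hx, hy]

theorem eE_g (ρ : Representation k G M) (g : G) (x : TT k (Pw k (Up c) M) (Pw k (Fx c) M)) :
    eE c hc k M (tens (tpow (Up c) ρ) (tpow (Fx c) ρ) (g, 1) x) =
      sym (Fin m) ρ (g, 1) (eE c hc k M x) := by
  have h : (eE c hc k M).toLinearMap ∘ₗ tens (tpow (Up c) ρ) (tpow (Fx c) ρ) (g, 1) =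
      sym (Fin m) ρ (g, 1) ∘ₗ (eE c hc k M).toLinearMap := by
    apply ext3
    intro a b d
    rw [LinearMap.comp_apply, LinearMap.comp_apply, LinearEquiv.coe_coe, tens_one_right,
      TensorProduct.map_tmul, TensorProduct.map_tmul, tpow_apply, tpow_apply, tpow_apply,
      PiTensorProduct.map_tprod, PiTensorProduct.map_tprod, PiTensorProduct.map_tprod,
      eE_tprod, eE_tprod, sym_tprod]
    congr 1
    funext i
    rw [inv_one, Equiv.Perm.one_apply]
    rcases (thetaE c hc).symm i with (j | j) | j <;> rfl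
  exact LinearMap.congr_fun h x

theorem eE_c (ρ : Representation k G M) {s : C2} (hs : s ≠ 1)
    (x : TT k (Pw k (Up c) M) (Pw k (Fx c) M)) :
    eE c hc k M (tens (tpow (Up c) ρ) (tpow (Fx c) ρ) (1, s) x) =
      sym (Fin m) ρ (1, c) (eE c hc k M x) := by
  have h : (eE c hc k M).toLinearMap ∘ₗ tens (tpow (Up c) ρ) (tpow (Fx c) ρ) (1, s) =
      sym (Fin m) ρ (1, c) ∘ₗ (eE c hc k M).toLinearMap := by
    apply ext3
    intro a b d
    rw [LinearMap.comp_apply, LinearMap.comp_apply, LinearEquiv.coe_coe,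
      tens_one_left _ _ hs, TensorProduct.map_tmul, LinearEquiv.coe_coe,
      TensorProduct.comm_tmul, LinearMap.id_apply, eE_tprod, eE_tprod, sym_tprod]
    congr 1
    funext i
    rw [map_one, Module.End.one_apply]
    have hinv : c⁻¹ i = c i := by
      rw [Equiv.Perm.inv_eq_iff_eq, hc]
    rw [hinv]
    obtain ⟨x, rfl⟩ := (thetaE c hc).surjective i
    have h1 : (thetaE c hc).symm (c (thetaE c hc x)) = flip' x := by
      rw [Equiv.symm_apply_eq]
      exact (theta_flip c hc x).symm
    rw [h1, Equiv.symm_apply_apply]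
    rcases x with (j | j) | j <;> rfl
  exact LinearMap.congr_fun h x

include hc in
/-- The tensor power over `G` and an involution of the factors. -/
theorem triv_sym_iff (ρ : Representation k G M) :
    Triv (tens (tpow (Up c) ρ) (tpow (Fx c) ρ)) ↔
      ∃ (w : Pw k (Fin m) M) (T : Pw k (Fin m) M →ₗ[k] k),
        (∀ g, sym (Fin m) ρ (g, 1) w = w) ∧ sym (Fin m) ρ (1, c) w = w ∧
        (∀ g x, T (sym (Fin m) ρ (g, 1) x) = T x) ∧ (∀ x, T (sym (Fin m) ρ (1, c) x) = T x) ∧
        T w = 1 := by
  constructor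
  · rintro ⟨w, T, hw, hT, h1⟩
    refine ⟨eE c hc k M w, T ∘ₗ (eE c hc k M).symm.toLinearMap, fun g => ?_, ?_,
      fun g x => ?_, fun x => ?_, ?_⟩
    · rw [← eE_g, hw]
    · rw [← eE_c c hc ρ gen_ne, hw]
    · obtain ⟨y, rfl⟩ := (eE c hc k M).surjective x
      rw [← eE_g, LinearMap.comp_apply, LinearMap.comp_apply, LinearEquiv.coe_coe,
        LinearEquiv.symm_apply_apply, LinearEquiv.symm_apply_apply, hT]
    · obtain ⟨y, rfl⟩ := (eE c hc k M).surjective x
      rw [← eE_c c hc ρ gen_ne, LinearMap.comp_apply, LinearMap.comp_apply,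
        LinearEquiv.coe_coe, LinearEquiv.symm_apply_apply, LinearEquiv.symm_apply_apply, hT]
    · rw [LinearMap.comp_apply, LinearEquiv.coe_coe, LinearEquiv.symm_apply_apply, h1]
  · rintro ⟨w, T, h1, h2, h3, h4, h5⟩
    refine ⟨(eE c hc k M).symm w, T ∘ₗ (eE c hc k M).toLinearMap,
      invVec_tens.mpr ⟨fun g => ?_, ?_⟩, invFun_tens.mpr ⟨fun g x => ?_, fun x => ?_⟩, ?_⟩
    · apply (eE c hc k M).injective
      rw [← tens_one_right, eE_g, LinearEquiv.apply_symm_apply, h1]
    · apply (eE c hc k M).injective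
      rw [← tens_one_left _ (tpow (Fx c) ρ) gen_ne, eE_c c hc ρ gen_ne,
        LinearEquiv.apply_symm_apply, h2]
    · rw [LinearMap.comp_apply, LinearMap.comp_apply, LinearEquiv.coe_coe, ← tens_one_right,
        eE_g, h3]
    · rw [LinearMap.comp_apply, LinearMap.comp_apply, LinearEquiv.coe_coe,
        ← tens_one_left _ (tpow (Fx c) ρ) gen_ne, eE_c c hc ρ gen_ne, h4]
    · rw [LinearMap.comp_apply, LinearEquiv.coe_coe, LinearEquiv.apply_symm_apply, h5]

theorem sym_mul_apply (ρ : Representation k G M) (g : G) (d : Equiv.Perm (Fin m))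
    (x : Pw k (Fin m) M) :
    sym (Fin m) ρ (g, d) x = sym (Fin m) ρ (g, 1) (sym (Fin m) ρ (1, d) x) := by
  rw [← Module.End.mul_apply, ← map_mul]
  simp

/-- The tensor power over `G` and the group generated by an involution of the factors. -/
theorem triv_symP_iff (hc' : c * c = 1) (ρ : Representation k G M) :
    Triv (symP (Fin m) (Subgroup.zpowers c) ρ) ↔
      Triv (tens (tpow (Up c) ρ) (tpow (Fx c) ρ)) := by
  have hc : ∀ i, c (c i) = i := fun i => by
    rw [← Equiv.Perm.mul_apply, hc', Equiv.Perm.one_apply]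
  have hmem : ∀ d : Subgroup.zpowers c, (d : Equiv.Perm (Fin m)) = 1 ∨
      (d : Equiv.Perm (Fin m)) = c := by
    rintro ⟨d, hd⟩
    obtain ⟨n, rfl⟩ := Subgroup.mem_zpowers_iff.mp hd
    rcases Int.even_or_odd' n with ⟨r, rfl | rfl⟩
    · left
      change c ^ (2 * r) = 1
      rw [zpow_mul, zpow_ofNat, pow_two, hc', one_zpow]
    · right
      change c ^ (2 * r + 1) = c
      rw [zpow_add, zpow_mul, zpow_ofNat, pow_two, hc', one_zpow, one_mul, zpow_one]
  have hone : ∀ x : Pw k (Fin m) M, sym (Fin m) ρ (1, 1) x = x := by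
    intro x
    have : ((1 : G), (1 : Equiv.Perm (Fin m))) = 1 := rfl
    rw [this, map_one, Module.End.one_apply]
  rw [triv_sym_iff c hc ρ]
  constructor
  · rintro ⟨w, T, hw, hT, h1⟩
    let d : Subgroup.zpowers c := ⟨c, Subgroup.mem_zpowers c⟩
    exact ⟨w, T, fun g => hw (g, 1), hw (1, d), fun g x => hT (g, 1) x, fun x => hT (1, d) x, h1⟩
  · rintro ⟨w, T, h1, h2, h3, h4, h5⟩
    refine ⟨w, T, ?_, ?_, h5⟩
    · rintro ⟨g, d⟩
      change sym (Fin m) ρ (g, (d : Equiv.Perm (Fin m))) w = w
      rw [sym_mul_apply]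
      rcases hmem d with hd | hd
      · rw [hd, hone, h1]
      · rw [hd, h2, h1]
    · rintro ⟨g, d⟩ x
      change T (sym (Fin m) ρ (g, (d : Equiv.Perm (Fin m))) x) = T x
      rw [sym_mul_apply, h3]
      rcases hmem d with hd | hd
      · rw [hd, hone]
      · rw [hd, h4]

include hc in
theorem card_up_fx : m = 2 * Fintype.card (Up c) + Fintype.card (Fx c) := by
  have h := Fintype.card_congr (thetaE c hc)
  rw [Fintype.card_sum, Fintype.card_sum, Fintype.card_fin] at h
  omega

/-- Theorem (2). -/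
theorem triv_involution [IsAlgClosed k] [CharP k 2] [Finite G] (hG : IsPGroup 2 G)
    [FiniteDimensional k M] (hc' : c * c = 1) (ρ : Representation k G M) {j f : ℕ}
    (hm : m = 2 * j + f) (hf : Nat.card {i : Fin m // c i = i} = f) :
    Triv (symP (Fin m) (Subgroup.zpowers c) ρ) ↔
      Triv (tpow (Fin j) ρ) ∧ Triv (tpow (Fin f) ρ) := by
  have hc : ∀ i, c (c i) = i := fun i => by
    rw [← Equiv.Perm.mul_apply, hc', Equiv.Perm.one_apply]
  have hf' : Fintype.card (Fx c) = f := by
    rw [← hf, Nat.card_eq_fintype_card]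
  have hj' : Fintype.card (Up c) = j := by
    have := card_up_fx c hc
    omega
  rw [triv_symP_iff c hc' ρ, triv_tens_iff hG,
    (tpow_congr (Fintype.equivFinOfCardEq hj') ρ).triv_iff,
    (tpow_congr (Fintype.equivFinOfCardEq hf') ρ).triv_iff]

/-- A smallest odd tensor power with a trivial summand. -/
theorem not_triv_of_minimal [IsAlgClosed k] [CharP k 2] [Finite G] (hG : IsPGroup 2 G)
    [FiniteDimensional k M] (ρ : Representation k G M) (hm : Odd m)
    (hmin : ∀ n, Odd n → n < m → ¬ Triv (tpow (Fin n) ρ)) (P : Subgroup (Equiv.Perm (Fin m)))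
    (hP : Even (Nat.card P)) : ¬ Triv (symP (Fin m) P ρ) := by
  intro h
  have : Fact (Nat.Prime 2) := ⟨Nat.prime_two⟩
  obtain ⟨d, hd⟩ := exists_prime_orderOf_dvd_card' 2 (even_iff_two_dvd.mp hP)
  have hd2 : (d : Equiv.Perm (Fin m)) * d = 1 := by
    have h1 : d ^ 2 = 1 := by rw [← hd, pow_orderOf_eq_one]
    rw [pow_two] at h1
    exact congrArg Subtype.val h1
  have hd1 : (d : Equiv.Perm (Fin m)) ≠ 1 := by
    intro h1
    have h2 : d = 1 := Subtype.ext h1
    rw [h2, orderOf_one] at hd
    omega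
  obtain ⟨w, T, hw, hT, h1⟩ := h
  have hle : ∀ x : Subgroup.zpowers (d : Equiv.Perm (Fin m)),
      (x : Equiv.Perm (Fin m)) ∈ P := fun x =>
    (Subgroup.zpowers_le.mpr d.2) x.2
  have h2 : Triv (symP (Fin m) (Subgroup.zpowers (d : Equiv.Perm (Fin m))) ρ) := by
    refine ⟨w, T, ?_, ?_, h1⟩
    · rintro ⟨g, x⟩
      exact hw (g, ⟨x, hle x⟩)
    · rintro ⟨g, x⟩ y
      exact hT (g, ⟨x, hle x⟩) y
  have hc : ∀ i, (d : Equiv.Perm (Fin m)) ((d : Equiv.Perm (Fin m)) i) = i := fun i => by
    rw [← Equiv.Perm.mul_apply, hd2, Equiv.Perm.one_apply]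
  have hcard := card_up_fx _ hc
  have h3 := (triv_involution (d : Equiv.Perm (Fin m)) hG hd2 ρ hcard
    (by rw [Nat.card_eq_fintype_card])).mp h2
  refine hmin _ ?_ ?_ h3.2
  · rw [hcard, Nat.odd_add] at hm
    by_contra h4
    rw [Nat.not_odd_iff_even] at h4
    have h5 := hm.mpr h4
    exact (Nat.not_odd_iff_even.mpr (even_two_mul _)) h5
  · have h4 : 0 < Fintype.card (Up (d : Equiv.Perm (Fin m))) := by
      rw [Fintype.card_pos_iff]
      by_contra h5
      rw [not_nonempty_iff] at h5
      apply hd1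
      refine Equiv.ext fun i => ?_
      rw [Equiv.Perm.one_apply]
      rcases lt_trichotomy i ((d : Equiv.Perm (Fin m)) i) with h6 | h6 | h6
      · exact (h5.false ⟨i, h6⟩).elim
      · exact h6.symm
      · exact (h5.false ⟨(d : Equiv.Perm (Fin m)) i, by rw [hc]; exact h6⟩).elim
    omega

end

end Pool.Agent.AMP
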