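import Mathlib
import Pool.Agent.AMP.Invol

/-! Modules as objects, and the number of isomorphism classes with `k | V^(⊗ m)`. -/

set_option autoImplicit false

namespace Pool.Agent.AMP

open TensorProduct

/-- A finite-dimensional module over the group `G`. -/
structure FMod (k G : Type) [Field k] [Group G] where
  /-- the vector space -/
  V : Type
  [grp : AddCommGroup V]
  [mod : Module k V]
  [fin : FiniteDimensional k V]
  /-- the action of `G` -/
  ρ : Representation k G V

namespace FMod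

attribute [instance] FMod.grp FMod.mod FMod.fin

variable {k G : Type} [Field k] [Group G]

/-- The dimension. -/
noncomputable def dim (M : FMod k G) : ℕ := Module.finrank k M.V

/-- The trivial module `k` is a direct summand of `M`. -/
def HasTriv (M : FMod k G) : Prop := Triv M.ρ

/-- `M` is indecomposable (in particular nonzero). -/
def Indecomposable (M : FMod k G) : Prop := Indec M.ρ

/-- `M` and `N` are isomorphic. -/
def Isom (M N : FMod k G) : Prop := Iso M.ρ N.ρ

/-- The trivial module `k`. -/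
noncomputable def triv (k G : Type) [Field k] [Group G] : FMod k G where
  V := k
  ρ := 1

/-- The direct sum. -/
noncomputable def dsum (M N : FMod k G) : FMod k G where
  V := M.V × N.V
  ρ := M.ρ.prod N.ρ

/-- The module `N(Y) ⊗ X = (Y ⊗ Y) ⊗ X` over `G × C2`: the group `G` acts diagonally, the
generator of `C2` exchanges the two factors `Y`. -/
noncomputable def NY (Y X : FMod k G) : FMod k (G × C2) where
  V := TT k Y.V X.V
  ρ := tens Y.ρ X.ρ

/-- The tensor power with `m` factors. -/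
noncomputable def pow (M : FMod k G) (m : ℕ) : FMod k G where
  V := Pw k (Fin m) M.V
  ρ := tpow (Fin m) M.ρ

/-- The tensor power with `m` factors over `G × P`, for a group `P` of permutations of the
factors. -/
noncomputable def powSym (M : FMod k G) (m : ℕ) (P : Subgroup (Equiv.Perm (Fin m))) :
    FMod k (G × P) where
  V := Pw k (Fin m) M.V
  ρ := symP (Fin m) P M.ρ

/-- `U` is an indecomposable direct summand of odd dimension of `N(Y) ⊗ X`. -/
def IsOddPart (Y X : FMod k G) (U : FMod k (G × C2)) : Prop :=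
  U.Indecomposable ∧ Odd U.dim ∧ ∃ R : FMod k (G × C2), (NY Y X).Isom (U.dsum R)

/-- There are at least `n` isomorphism classes of indecomposable modules `V` such that `k` is a
direct summand of the tensor power of `V` with `m` factors. -/
def AtLeast (k : Type) [Field k] (m : ℕ) (G : Type) [Group G] (n : ℕ) : Prop :=
  ∃ L : Fin n → FMod k G, (∀ i, (L i).Indecomposable ∧ ((L i).pow m).HasTriv) ∧
    ∀ i j, (L i).Isom (L j) → i = j

/-- A direct sum decomposition gives a summand in the sense of `IsSum`. -/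
theorem exists_isSum {M U R : FMod k G} (h : M.Isom (U.dsum R)) :
    ∃ (i : U.V →ₗ[k] M.V) (p : M.V →ₗ[k] U.V) (j : R.V →ₗ[k] M.V) (q : M.V →ₗ[k] R.V),
      IsSum U.ρ M.ρ i p ∧ IsSum R.ρ M.ρ j q ∧ p ∘ₗ j = 0 := by
  obtain ⟨e, he⟩ := h
  have h1 := isSum_of_iso e he
  have h2 : IsSum U.ρ (U.dsum R).ρ (LinearMap.inl k U.V R.V) (LinearMap.fst k U.V R.V) := by
    refine ⟨fun g x => ?_, fun g x => rfl, fun x => rfl⟩
    change ((U.ρ g x, 0) : U.V × R.V) = (U.ρ g x, R.ρ g 0)
    rw [map_zero]
  have h3 : IsSum R.ρ (U.dsum R).ρ (LinearMap.inr k U.V R.V) (LinearMap.snd k U.V R.V) := by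
    refine ⟨fun g x => ?_, fun g x => rfl, fun x => rfl⟩
    change ((0, R.ρ g x) : U.V × R.V) = (U.ρ g 0, R.ρ g x)
    rw [map_zero]
  have h1' : IsSum (U.dsum R).ρ M.ρ e.symm.toLinearMap e.toLinearMap :=
    ⟨h1.2.1, h1.1, fun x => e.apply_symm_apply x⟩
  refine ⟨_, _, _, _, h2.trans h1', h3.trans h1', ?_⟩
  refine LinearMap.ext fun x => ?_
  have h4 : e (e.symm (LinearMap.inr k U.V R.V x)) = LinearMap.inr k U.V R.V x :=
    e.apply_symm_apply _
  exact congrArg (Prod.fst : U.V × R.V → U.V) h4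

/-- A summand in the sense of `IsSum` gives a direct sum decomposition. -/
theorem exists_dsum {M U : FMod k G} {i : U.V →ₗ[k] M.V} {p : M.V →ₗ[k] U.V}
    (h : IsSum U.ρ M.ρ i p) : ∃ R : FMod k G, M.Isom (U.dsum R) := by
  refine ⟨⟨LinearMap.ker p, sub M.ρ (LinearMap.ker p) (ker_inv h)⟩, ?_⟩
  have hk := isSum_ker h
  let e : M.V ≃ₗ[k] U.V × LinearMap.ker p := LinearEquiv.ofLinearMap
    (LinearMap.prod p (kproj i p h.2.2)) (LinearMap.coprod i (LinearMap.ker p).subtype)
    (by
      refine LinearMap.ext fun x => ?_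
      obtain ⟨u, r⟩ := x
      have hr : p (r : M.V) = 0 := r.2
      refine Prod.ext ?_ (Subtype.ext ?_)
      · change p (i u + (r : M.V)) = u
        rw [map_add, h.2.2, hr, add_zero]
      · change (i u + (r : M.V)) - i (p (i u + (r : M.V))) = r
        rw [map_add, h.2.2, hr, add_zero]
        abel)
    (by
      refine LinearMap.ext fun x => ?_
      change i (p x) + (x - i (p x)) = x
      abel)
  refine ⟨e, fun g x => ?_⟩
  refine Prod.ext ?_ ?_
  · exact h.2.1 g x
  · exact hk.2.1 g x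

variable [IsAlgClosed k] [CharP k 2] [Finite G]

theorem NY_odd {Y X : FMod k G} (oY : Odd Y.dim) (oX : Odd X.dim) : Odd (NY Y X).dim :=
  odd_TT oY oX

/-- Existence of the odd part, and the other summands are even. -/
theorem exists_oddPart (hG : IsPGroup 2 G) {Y X : FMod k G} (hY : Y.Indecomposable)
    (hX : X.Indecomposable) (oY : Odd Y.dim) (oX : Odd X.dim) :
    ∃ U R : FMod k (G × C2), (NY Y X).Isom (U.dsum R) ∧ U.Indecomposable ∧ Odd U.dim ∧
      ∀ S S' : FMod k (G × C2), R.Isom (S.dsum S') → Even S.dim := by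
  obtain ⟨A, i1, i2, i3, α, i, p, h, hA, oA⟩ :=
    exists_odd_summand (NY Y X).dim (NY Y X).V (NY Y X).ρ rfl (NY_odd oY oX)
  let U : FMod k (G × C2) := ⟨A, α⟩
  obtain ⟨R, hR⟩ := exists_dsum (M := NY Y X) (U := U) h
  refine ⟨U, R, hR, hA, oA, ?_⟩
  intro S S' hS
  obtain ⟨i, p, j, q, h1, h2, h3⟩ := exists_isSum hR
  obtain ⟨i', p', _, _, h1', _, _⟩ := exists_isSum hS
  exact (neg_compl (tf_tens hG hY hX oY oX) (NY_odd oY oX) h1 oA h2 h3).even h1'

/-- The odd part determines `X` and `Y`, and conversely. -/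
theorem oddPart_iff (hG : IsPGroup 2 G) {Y X Y' X' : FMod k G} (hY : Y.Indecomposable)
    (hX : X.Indecomposable) (oY : Odd Y.dim) (oX : Odd X.dim) (hY' : Y'.Indecomposable)
    (hX' : X'.Indecomposable) {U U' : FMod k (G × C2)}
    (h : IsOddPart Y X U) (h' : IsOddPart Y' X' U') :
    U.Isom U' ↔ Y.Isom Y' ∧ X.Isom X' := by
  obtain ⟨hU, oU, R, hR⟩ := h
  obtain ⟨hU', oU', R', hR'⟩ := h'
  obtain ⟨i, p, _, _, h1, _, _⟩ := exists_isSum hR
  obtain ⟨i', p', _, _, h1', _, _⟩ := exists_isSum hR'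
  constructor
  · intro h2
    exact iso_of_summands hG hY hX hY' hX' h1 oU h1' h2
  · rintro ⟨h2, h3⟩
    obtain ⟨e, he⟩ := (iso_tens h2 h3).symm
    exact iso_summands (tf_tens hG hY hX oY oX) (NY_odd oY oX) h1 hU oU
      (h1'.trans (isSum_of_iso e he)) hU' oU'

/-- Tensor powers of the odd part. -/
theorem oddPart_pow (hG : IsPGroup 2 G) {Y X : FMod k G} (hY : Y.Indecomposable)
    (hX : X.Indecomposable) (oY : Odd Y.dim) (oX : Odd X.dim) {U : FMod k (G × C2)}
    (h : IsOddPart Y X U) (m : ℕ) :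
    (U.pow m).HasTriv ↔ (Y.pow m).HasTriv ∧ (X.pow m).HasTriv := by
  obtain ⟨hU, oU, R, hR⟩ := h
  obtain ⟨i, p, _, _, h1, _, _⟩ := exists_isSum hR
  have h2 := pow_reduce (tf_tens hG hY hX oY oX) (NY_odd oY oX) h1 oU m
  have h3 := (tpow_tens hG Y.ρ X.ρ m).triv_iff
  have h4 := triv_tens_iff hG (tpow (Fin m) Y.ρ) (tpow (Fin m) X.ρ)
  exact h2.trans (h3.trans h4)

omit [Finite G] in
/-- If `k` is a direct summand of a tensor power with at least one factor of an indecomposable
module, then the module has odd dimension. -/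
theorem odd_of_pow {M : FMod k G} (hM : M.Indecomposable) {m : ℕ} (hm : m ≠ 0)
    (h : (M.pow m).HasTriv) : Odd M.dim := by
  obtain ⟨n, rfl⟩ := Nat.exists_eq_succ_of_ne_zero hm
  rw [← Nat.not_even_iff_odd]
  intro he
  have h1 : Triv (tp (tpow (Fin n) M.ρ) M.ρ) := (tpow_succ n M.ρ).symm.triv h
  obtain ⟨w, T, hw, hT, h2⟩ := h1
  rw [(neg_of_even hM he).not_triv hw hT] at h2
  exact zero_ne_one h2

/-- The squaring inequality. -/
theorem atLeast_sq (hG : IsPGroup 2 G) {m : ℕ} (hm : m ≠ 0) {n : ℕ} (h : AtLeast k m G n) :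
    AtLeast k m (G × C2) (n * n) := by
  classical
  obtain ⟨L, hL, hL'⟩ := h
  have ho : ∀ i, Odd (L i).dim := fun i => odd_of_pow (hL i).1 hm (hL i).2
  have hex : ∀ a : Fin n × Fin n, ∃ U : FMod k (G × C2), IsOddPart (L a.1) (L a.2) U := by
    intro a
    obtain ⟨U, R, h1, h2, h3, _⟩ := exists_oddPart hG (hL a.1).1 (hL a.2).1 (ho a.1) (ho a.2)
    exact ⟨U, h2, h3, R, h1⟩
  choose F hF using hex
  refine ⟨fun i => F (finProdFinEquiv.symm i), fun i => ⟨(hF _).1, ?_⟩, fun i j hij => ?_⟩
  · exact (oddPart_pow hG (hL _).1 (hL _).1 (ho _) (ho _) (hF _) m).mpr ⟨(hL _).2, (hL _).2⟩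
  · have h1 := (oddPart_iff hG (hL _).1 (hL _).1 (ho _) (ho _) (hL _).1 (hL _).1
      (hF _) (hF _)).mp hij
    apply finProdFinEquiv.symm.injective
    exact Prod.ext (hL' _ _ h1.1) (hL' _ _ h1.2)

omit [IsAlgClosed k] [CharP k 2] [Finite G] in
theorem triv_indecomposable : (triv k G).Indecomposable := by
  refine ⟨inferInstanceAs (Nontrivial k), fun U W _ _ hc => ?_⟩
  rcases eq_bot_or_eq_top (α := Submodule k k) U with h | h
  · exact Or.inl h
  · right
    have h1 := hc.disjoint
    rw [h] at h1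
    exact top_disjoint.mp h1

omit [IsAlgClosed k] [CharP k 2] [Finite G] in
theorem triv_hasTriv_pow (m : ℕ) : ((triv k G).pow m).HasTriv := by
  let T : Pw k (Fin m) k →ₗ[k] k := PiTensorProduct.lift (MultilinearMap.mkPiAlgebra k (Fin m) k)
  have h1 : ∀ (g : G) (x : Pw k (Fin m) k), tpow (Fin m) (1 : Rep' k G k) g x = x := by
    intro g x
    have h2 : tpow (Fin m) (1 : Rep' k G k) g = LinearMap.id := PiTensorProduct.map_id
    rw [h2, LinearMap.id_apply]
  have h3 : T (PiTensorProduct.tprod k fun _ => (1 : k)) = 1 := by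
    simp only [T]
    rw [PiTensorProduct.lift.tprod, MultilinearMap.mkPiAlgebra_apply, Finset.prod_const_one]
  exact ⟨PiTensorProduct.tprod k fun _ => (1 : k), T, fun g => h1 g _,
    fun g x => congrArg T (h1 g x), h3⟩

/-- The iterated squaring inequality. -/
theorem exists_atLeast (hG : IsPGroup 2 G) {m : ℕ} (hm : m ≠ 0) (h : AtLeast k m G 2) (r : ℕ) :
    ∃ (H : Type) (_ : Group H) (_ : Finite H), IsPGroup 2 H ∧
      Nat.card H = Nat.card G * 2 ^ r ∧ AtLeast k m H (2 ^ 2 ^ r) := by
  induction r with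
  | zero => exact ⟨G, _, inferInstance, hG, by simp, by simpa using h⟩
  | succ r ih =>
    obtain ⟨H, i1, i2, h1, h2, h3⟩ := ih
    refine ⟨H × C2, inferInstance, inferInstance, isPGroup_prod h1, ?_, ?_⟩
    · rw [Nat.card_prod, h2, pow_succ, mul_assoc]
      congr 2
      rw [Nat.card_eq_fintype_card]
      rfl
    · have h4 := atLeast_sq h1 hm h3
      rw [pow_succ 2 r, pow_mul, pow_two]
      exact h4

end FMod

/-- Q1 for `2`-groups, in the equivalent form of the problem: for every finite `2`-group `G`, every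
nontrivial indecomposable `V` and every odd `m`, the trivial module is not a direct summand of the
tensor power of `V` with `m` factors. -/
def Q1 (k : Type) [Field k] : Prop :=
  ∀ (G : Type) [Group G] [Finite G], IsPGroup 2 G → ∀ V : FMod k G, V.Indecomposable →
    ¬ V.Isom (FMod.triv k G) → ∀ m : ℕ, Odd m → ¬ (V.pow m).HasTriv

/-- For every odd `m`, the logarithm of the number of isomorphism classes of indecomposable modules
`V` of a finite `2`-group `G` such that `k` is a direct summand of the tensor power of `V` with `m`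
factors is `o(|G|)`. -/
def Growth (k : Type) [Field k] : Prop :=
  ∀ m : ℕ, Odd m → ∀ ε : ℝ, 0 < ε → ∃ N : ℕ, ∀ (G : Type) [Group G] [Finite G], IsPGroup 2 G →
    N ≤ Nat.card G → ∀ n : ℕ, FMod.AtLeast k m G n → (n : ℝ) ≤ Real.exp (ε * Nat.card G)

theorem q1_iff_growth (k : Type) [Field k] [IsAlgClosed k] [CharP k 2] : Q1 k ↔ Growth k := by
  constructor
  · intro hQ m hm ε hε
    refine ⟨0, fun G _ _ hG _ n hn => ?_⟩
    obtain ⟨L, hL, hL'⟩ := hn
    have h1 : ∀ i, (L i).Isom (FMod.triv k G) := by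
      intro i
      by_contra h2
      exact hQ G hG (L i) (hL i).1 h2 m hm (hL i).2
    have h2 : n ≤ 1 := by
      by_contra h3
      push Not at h3
      have h4 := hL' ⟨0, by omega⟩ ⟨1, by omega⟩
        (Iso.trans (h1 ⟨0, by omega⟩) (Iso.symm (h1 ⟨1, by omega⟩)))
      exact absurd (congrArg Fin.val h4) (by simp)
    calc (n : ℝ) ≤ 1 := by exact_mod_cast h2
      _ ≤ Real.exp (ε * Nat.card G) := Real.one_le_exp (by positivity)
  · intro hgr G _ _ hG V hV hV1 m hm hT
    have hm0 : m ≠ 0 := by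
      rintro rfl
      exact absurd hm (by decide)
    have h2 : FMod.AtLeast k m G 2 := by
      refine ⟨![V, FMod.triv k G], ?_, ?_⟩
      · intro i
        fin_cases i
        · exact ⟨hV, hT⟩
        · exact ⟨FMod.triv_indecomposable, FMod.triv_hasTriv_pow m⟩
      · intro i j hij
        fin_cases i <;> fin_cases j
        · rfl
        · exact absurd hij hV1
        · exact absurd (Iso.symm hij) hV1
        · rfl
    have hcard : 0 < (Nat.card G : ℝ) := by exact_mod_cast Nat.card_pos
    have hlog : 0 < Real.log 2 := Real.log_pos one_lt_two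
    obtain ⟨N, hN⟩ := hgr m hm (Real.log 2 / (2 * Nat.card G)) (by positivity)
    obtain ⟨H, i1, i2, h3, h4, h5⟩ := FMod.exists_atLeast hG hm0 h2 N
    have hle : N ≤ Nat.card H := by
      rw [h4]
      calc N ≤ 2 ^ N := Nat.lt_two_pow_self.le
        _ ≤ Nat.card G * 2 ^ N := Nat.le_mul_of_pos_left _ Nat.card_pos
    have h6 := hN H h3 hle _ h5
    rw [h4] at h6
    have h7 : Real.log 2 / (2 * Nat.card G) * ((Nat.card G * 2 ^ N : ℕ) : ℝ) =
        Real.log 2 * 2 ^ N / 2 := by
      push_cast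
      field_simp
    rw [h7] at h6
    have h8 : ((2 ^ 2 ^ N : ℕ) : ℝ) = Real.exp (Real.log 2 * 2 ^ N) := by
      push_cast
      rw [← Real.rpow_natCast 2 (2 ^ N), Real.rpow_def_of_pos two_pos]
      push_cast
      rfl
    rw [h8, Real.exp_le_exp] at h6
    have h9 : 0 < Real.log 2 * 2 ^ N := by positivity
    linarith

end Pool.Agent.AMP
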